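import Mathlib

/-!
# Knots in integral homology spheres and mod `p` loop moves, through Heegaard splittings

`F g` is the fundamental group of the compact oriented surface `S` of genus `g + 1` with one
boundary circle (base point on the boundary), free on `a i`, `b i` (`i = 0, …, g`), with boundary
word `∏ [a i, b i]`.  The surface is (up to a disc) the boundary of a handlebody `V` in which the
`a i` bound discs and the `b i` are the cores of the handles, and of the complementary handlebody
`W` in which the `b i` bound discs.

A mapping class of `S` is the same as an automorphism of `F g` that fixes the boundary word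
(Dehn, Nielsen, Baer).  A mapping class `φ` gives the closed oriented 3-manifold `M = V ∪_φ W`, in
which the curves `a i` and `φ (b i)` bound discs, and the knot `K` which is the core of the handle
`0` of `V`.  Every pair (closed oriented 3-manifold, oriented knot) is obtained in this way.
-/

set_option autoImplicit false

namespace Pool.Agent.H85.Loop

/-- The free group `π₁(S)` on `a i = (i, false)` and `b i = (i, true)`, `i = 0, …, g`. -/
abbrev F (g : ℕ) : Type := FreeGroup (Fin (g + 1) × Bool)

/-- The curve around the `i`-th handle of `V` (it bounds a disc in `V`). -/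
def a {g : ℕ} (i : Fin (g + 1)) : F g := FreeGroup.of (i, false)

/-- The curve along the `i`-th handle of `V` (it bounds a disc in the standard `W`). -/
def b {g : ℕ} (i : Fin (g + 1)) : F g := FreeGroup.of (i, true)

/-- The boundary word `∏ [a i, b i]`. -/
def bdry (g : ℕ) : F g := (List.ofFn fun i : Fin (g + 1) => a i * b i * (a i)⁻¹ * (b i)⁻¹).prod

/-- The relations of `π₁(M)`, `M = V ∪_φ W`: the `a i` and the `φ (b i)` are killed. -/
def relM {g : ℕ} (φ : F g ≃* F g) : Subgroup (F g) :=
  Subgroup.normalClosure ({x | ∃ i, x = a i} ∪ {x | ∃ i, x = φ (b i)})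

/-- The relations of `π₁(M ∖ K)`, `K` the core of the handle `0` of `V`: the `a i` with `i ≠ 0` and
the `φ (b i)` are killed. -/
def relK {g : ℕ} (φ : F g ≃* F g) : Subgroup (F g) :=
  Subgroup.normalClosure ({x | ∃ i, i ≠ 0 ∧ x = a i} ∪ {x | ∃ i, x = φ (b i)})

/-- The relations of `π₁(M ∖ K)` modulo the `p`-th power of the meridian `a 0` of `K`. -/
def relO {g : ℕ} (φ : F g ≃* F g) (p : ℕ) : Subgroup (F g) :=
  Subgroup.normalClosure
    ({x | ∃ i, i ≠ 0 ∧ x = a i} ∪ {x | ∃ i, x = φ (b i)} ∪ {(a 0) ^ p})

instance {g : ℕ} (φ : F g ≃* F g) : (relM φ).Normal := Subgroup.normalClosure_normal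
instance {g : ℕ} (φ : F g ≃* F g) : (relK φ).Normal := Subgroup.normalClosure_normal
instance {g : ℕ} (φ : F g ≃* F g) (p : ℕ) : (relO φ p).Normal := Subgroup.normalClosure_normal

/-- A pair `(M, K)`: a knot `K` in an integral homology sphere `M = V ∪_φ W`, given with a Heegaard
splitting of genus `g + 1` in which `K` is the core of the handle `0` of `V`.
`lk` is the linking number with `K`, on loops of the splitting surface; it is determined by the
other data. -/
structure Pair (g : ℕ) where
  /-- the gluing mapping class -/
  glue : F g ≃* F g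
  /-- it fixes the boundary word -/
  glue_bdry : glue (bdry g) = bdry g
  /-- `H₁(M; ℤ) = 0` -/
  homologySphere : Subsingleton (Abelianization (F g ⧸ relM glue))
  /-- linking number with `K` -/
  lk : F g →* Multiplicative ℤ
  lk_zero : lk (a 0) = Multiplicative.ofAdd 1
  lk_a : ∀ i, i ≠ 0 → lk (a i) = 1
  lk_b : ∀ i, lk (glue (b i)) = 1

namespace Pair

variable {g : ℕ} (D : Pair g)

/-- `π₁(M)`. -/
abbrev manifoldGroup : Type := F g ⧸ relM D.glue

/-- `π₁(M ∖ K)`. -/
abbrev knotGroup : Type := F g ⧸ relK D.glue

/-- The meridian of `K`. -/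
def meridian : D.knotGroup := QuotientGroup.mk (a 0)

/-- `π₁(M ∖ K)` modulo the `p`-th power of the meridian. -/
abbrev orbGroup (p : ℕ) : Type := F g ⧸ relO D.glue p

/-- The linking number with `K` modulo `p`, as a function on `F g`. -/
def lkModFree (p : ℕ) : F g →* Multiplicative (ZMod p) :=
  (AddMonoidHom.toMultiplicative (Int.castAddHom (ZMod p))).comp D.lk

theorem relO_le_ker (p : ℕ) : relO D.glue p ≤ (D.lkModFree p).ker := by
  refine Subgroup.normalClosure_le_normal ?_
  rintro x ((⟨i, hi, rfl⟩ | ⟨i, rfl⟩) | hx)
  · simp [lkModFree, MonoidHom.mem_ker, D.lk_a i hi]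
  · simp [lkModFree, MonoidHom.mem_ker, D.lk_b i]
  · rw [Set.mem_singleton_iff] at hx
    subst hx
    simp only [SetLike.mem_coe, MonoidHom.mem_ker, lkModFree, MonoidHom.comp_apply, map_pow,
      D.lk_zero]
    apply Multiplicative.toAdd.injective
    simp

/-- The linking number with `K` modulo `p`, on `π₁(M ∖ K)` modulo the `p`-th power of the
meridian. -/
def lkMod (p : ℕ) : D.orbGroup p →* Multiplicative (ZMod p) :=
  QuotientGroup.lift (relO D.glue p) (D.lkModFree p) (D.relO_le_ker p)

/-- `H₁(Σ; ℤ)`, `Σ` the `p`-fold cyclic cover of `M` branched along `K`: the abelianization of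
`π₁(Σ)`, which is the kernel of the linking number mod `p` on `π₁(M ∖ K)` modulo the `p`-th power
of the meridian. -/
abbrev branchedH1 (p : ℕ) : Type := Abelianization (D.lkMod p).ker

end Pair

/-- The subgroup `π₁` of the part of the surface carrying the handles `i ∈ I`. -/
def handleSubgroup {g : ℕ} (I : Set (Fin (g + 1))) : Subgroup (F g) :=
  Subgroup.closure {x | ∃ i ∈ I, x = a i ∨ x = b i}

/-- `τ` is a mapping class of the splitting surface, supported on the handles `i ∈ I` and acting
trivially on the homology (an element of the Torelli group). -/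
structure TorelliOn {g : ℕ} (I : Set (Fin (g + 1))) (τ : F g ≃* F g) : Prop where
  bdry : τ (bdry g) = bdry g
  off : ∀ i, i ∉ I → τ (a i) = a i ∧ τ (b i) = b i
  on : ∀ i ∈ I, (a i)⁻¹ * τ (a i) ∈ ⁅handleSubgroup I, handleSubgroup I⁆ ∧
    (b i)⁻¹ * τ (b i) ∈ ⁅handleSubgroup I, handleSubgroup I⁆

/-- `(M', K)` is obtained from `(M, K)` by cutting out a handlebody of `M ∖ K`, which consists of
the handles `i ∈ I` of `V`, and gluing it back through an element of the Torelli group of its
boundary; the cores of all its handles have linking number `≡ 0 (mod p)` with `K`.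
Surgery on a Y graph is the case where the handlebody is a regular neighbourhood of the Y graph
(so that `I` has three elements, the cores are the leaves) and the gluing map is Borromean. -/
def LoopMove (p : ℕ) {g : ℕ} (D D' : Pair g) : Prop :=
  ∃ (I : Set (Fin (g + 1))) (τ : F g ≃* F g), 0 ∉ I ∧
    (∀ i ∈ I, (p : ℤ) ∣ Multiplicative.toAdd (D.lk (b i))) ∧
    TorelliOn I τ ∧
    ∀ x, D'.glue x = τ (D.glue x)

/-- The groups of the two knots are isomorphic by an isomorphism that carries meridian to a
conjugate of the meridian.  This holds if `(M, K)` and `(M', K')` are homeomorphic as pairs. -/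
def SameGroup {g g' : ℕ} (D : Pair g) (D' : Pair g') : Prop :=
  ∃ θ : D.knotGroup ≃* D'.knotGroup, IsConj (θ D.meridian) D'.meridian

/-- One step: a change of the presentation of the same pair, or a mod `p` loop move. -/
inductive Step (p : ℕ) : (Σ g, Pair g) → (Σ g, Pair g) → Prop
  | same {g g' : ℕ} (D : Pair g) (D' : Pair g') : SameGroup D D' → Step p ⟨g, D⟩ ⟨g', D'⟩
  | loop {g : ℕ} (D D' : Pair g) : LoopMove p D D' → Step p ⟨g, D⟩ ⟨g, D'⟩

/-- Two pairs are related by a finite sequence of mod `p` loop moves. -/
def Related (p : ℕ) {g g' : ℕ} (D : Pair g) (D' : Pair g') : Prop :=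
  Relation.EqvGen (Step p) ⟨g, D⟩ ⟨g', D'⟩

end Pool.Agent.H85.Loop
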