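import Mathlib
import Pool.Agent.H85.LoopDefs

/-!
# Fox calculus and the Alexander determinant of a pair
-/

set_option autoImplicit false

namespace Pool.Agent.H85.Loop

open LaurentPolynomial

/-! ### Crossed homomorphisms -/

section Crossed

variable {G R M : Type*} [Group G] [CommRing R] [AddCommGroup M] [Module R M]

/-- Crossed homomorphisms `δ (v w) = δ v + χ v • δ w`. -/
structure Crossed (χ : G →* R) (δ : G → M) : Prop where
  mul : ∀ v w, δ (v * w) = δ v + χ v • δ w

namespace Crossed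

variable {χ : G →* R} {δ : G → M}

theorem one (h : Crossed χ δ) : δ 1 = 0 := by
  have h1 := h.mul 1 1
  simp only [mul_one, map_one, one_smul] at h1
  exact left_eq_add.mp h1

theorem inv (h : Crossed χ δ) (v : G) : δ v⁻¹ = -(χ v⁻¹ • δ v) := by
  have h1 := h.mul v⁻¹ v
  rw [inv_mul_cancel, h.one] at h1
  exact eq_neg_of_add_eq_zero_left h1.symm

theorem conj (h : Crossed χ δ) (w n : G) (hn : χ n = 1) : δ (w * n * w⁻¹) = χ w • δ n := by
  rw [h.mul, h.mul, h.inv, map_mul, hn, mul_one, smul_neg, smul_smul, ← map_mul,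
    mul_inv_cancel, map_one, one_smul]
  abel

/-- The elements on which `χ` is trivial and `δ` takes values in `S`. -/
def level (h : Crossed χ δ) (S : Submodule R M) : Subgroup G where
  carrier := {n | χ n = 1 ∧ δ n ∈ S}
  mul_mem' := by
    rintro x y ⟨hx1, hx2⟩ ⟨hy1, hy2⟩
    refine ⟨by rw [map_mul, hx1, hy1, one_mul], ?_⟩
    rw [h.mul, hx1, one_smul]
    exact S.add_mem hx2 hy2
  one_mem' := ⟨map_one χ, by rw [h.one]; exact S.zero_mem⟩
  inv_mem' := by
    rintro x ⟨hx1, hx2⟩
    have : χ x⁻¹ = 1 := by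
      have h2 := map_mul χ x⁻¹ x
      rw [inv_mul_cancel, map_one, hx1, mul_one] at h2
      exact h2.symm
    refine ⟨this, ?_⟩
    rw [h.inv, this, one_smul]
    exact S.neg_mem hx2

theorem level_normal (h : Crossed χ δ) (S : Submodule R M) : (h.level S).Normal where
  conj_mem := by
    rintro n ⟨hn1, hn2⟩ w
    refine ⟨?_, ?_⟩
    · rw [map_mul, map_mul, hn1, mul_one, ← map_mul, mul_inv_cancel, map_one]
    · rw [h.conj w n hn1]
      exact S.smul_mem _ hn2

theorem of_normalClosure (h : Crossed χ δ) (S : Submodule R M) (s : Set G)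
    (hs : ∀ x ∈ s, χ x = 1 ∧ δ x ∈ S) {n : G} (hn : n ∈ Subgroup.normalClosure s) :
    χ n = 1 ∧ δ n ∈ S := by
  have := h.level_normal S
  have : Subgroup.normalClosure s ≤ h.level S := Subgroup.normalClosure_le_normal hs
  exact this hn

end Crossed

/-- The affine group of a module. -/
@[ext] structure Aff (R M : Type*) [CommRing R] [AddCommGroup M] [Module R M] where
  u : Rˣ
  v : M

namespace Aff

instance : Mul (Aff R M) := ⟨fun x y => ⟨x.u * y.u, x.v + x.u.val • y.v⟩⟩
instance : One (Aff R M) := ⟨⟨1, 0⟩⟩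
instance : Inv (Aff R M) := ⟨fun x => ⟨x.u⁻¹, -(x.u⁻¹.val • x.v)⟩⟩

theorem mul_u (x y : Aff R M) : (x * y).u = x.u * y.u := rfl
theorem mul_v (x y : Aff R M) : (x * y).v = x.v + x.u.val • y.v := rfl
theorem one_u : (1 : Aff R M).u = 1 := rfl
theorem one_v : (1 : Aff R M).v = 0 := rfl
theorem inv_u (x : Aff R M) : (x⁻¹).u = x.u⁻¹ := rfl
theorem inv_v (x : Aff R M) : (x⁻¹).v = -(x.u⁻¹.val • x.v) := rfl

instance : Group (Aff R M) := Group.ofLeftAxioms
  (by
    intro x y z
    ext
    · simp only [mul_u, mul_assoc]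
    · simp only [mul_u, mul_v, smul_add, Units.val_mul, mul_smul, add_assoc])
  (by
    intro x
    ext
    · simp only [mul_u, one_u, one_mul]
    · simp only [mul_v, one_u, one_v, Units.val_one, one_smul, zero_add])
  (by
    intro x
    ext
    · simp only [mul_u, inv_u, one_u, inv_mul_cancel]
    · simp only [mul_v, inv_u, inv_v, one_v, neg_add_cancel])

end Aff

/-- Crossed homomorphisms on a free group with prescribed values on the generators. -/
theorem exists_crossed {X : Type*} (χ : FreeGroup X →* R) (m : X → M) :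
    ∃ δ : FreeGroup X → M, Crossed χ δ ∧ ∀ x, δ (FreeGroup.of x) = m x := by
  let f : FreeGroup X →* Aff R M :=
    FreeGroup.lift fun x => (⟨χ.toHomUnits (FreeGroup.of x), m x⟩ : Aff R M)
  have hf : ∀ x, f (FreeGroup.of x) = ⟨χ.toHomUnits (FreeGroup.of x), m x⟩ := fun x => by
    simp [f]
  have hu : ∀ w, (f w).u = χ.toHomUnits w := by
    intro w
    induction w using FreeGroup.induction_on with
    | C1 => rw [map_one, map_one]; rfl
    | of x => rw [hf]
    | inv_of x h => rw [map_inv, map_inv, Aff.inv_u, h]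
    | mul x y hx hy => rw [map_mul, map_mul, Aff.mul_u, hx, hy]
  refine ⟨fun w => (f w).v, ⟨fun v w => ?_⟩, fun x => ?_⟩
  · show (f (v * w)).v = (f v).v + χ v • (f w).v
    rw [map_mul, Aff.mul_v, hu]
    rfl
  · show (f (FreeGroup.of x)).v = m x
    rw [hf]

/-- Two crossed homomorphisms on a free group that agree on the generators are equal. -/
theorem Crossed.ext_free {X : Type*} {χ : FreeGroup X →* R} {δ ε : FreeGroup X → M}
    (hδ : Crossed χ δ) (hε : Crossed χ ε)
    (h : ∀ x, δ (FreeGroup.of x) = ε (FreeGroup.of x)) (w : FreeGroup X) : δ w = ε w := by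
  induction w using FreeGroup.induction_on with
  | C1 => rw [hδ.one, hε.one]
  | of x => exact h x
  | inv_of x hx => rw [hδ.inv, hε.inv, hx]
  | mul x y hx hy => rw [hδ.mul, hε.mul, hx, hy]

end Crossed

/-! ### The Alexander matrix of a pair -/

/-- The homomorphism `w ↦ T ^ lk w`. -/
noncomputable def tHom : Multiplicative ℤ →* ℤ[T;T⁻¹] where
  toFun n := T (Multiplicative.toAdd n)
  map_one' := by simp
  map_mul' x y := by rw [toAdd_mul, T_add]

namespace Pair

variable {g : ℕ} (D : Pair g)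

/-- `w ↦ T ^ lk w` on `π₁` of the splitting surface. -/
noncomputable def chi : F g →* ℤ[T;T⁻¹] := tHom.comp D.lk

theorem chi_apply (w : F g) : D.chi w = T (Multiplicative.toAdd (D.lk w)) := rfl

theorem exists_fox : ∃ δ : F g → (Fin (g + 1) → ℤ[T;T⁻¹]), Crossed D.chi δ ∧
    (∀ i, δ (a i) = 0) ∧ ∀ i, δ (b i) = Pi.single i 1 := by
  obtain ⟨δ, h1, h2⟩ := exists_crossed (M := Fin (g + 1) → ℤ[T;T⁻¹]) D.chi
    (fun x => if x.2 then Pi.single x.1 1 else 0)
  exact ⟨δ, h1, fun i => by rw [a, h2]; simp, fun i => by rw [b, h2]; simp⟩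

/-- The Fox derivatives with respect to the `b i`. -/
noncomputable def fox : F g → (Fin (g + 1) → ℤ[T;T⁻¹]) := D.exists_fox.choose

theorem fox_crossed : Crossed D.chi D.fox := D.exists_fox.choose_spec.1
theorem fox_a (i : Fin (g + 1)) : D.fox (a i) = 0 := D.exists_fox.choose_spec.2.1 i
theorem fox_b (i : Fin (g + 1)) : D.fox (b i) = Pi.single i 1 := D.exists_fox.choose_spec.2.2 i

/-- The Alexander matrix. -/
noncomputable def mat : Matrix (Fin (g + 1)) (Fin (g + 1)) ℤ[T;T⁻¹] :=
  Matrix.of fun i => D.fox (D.glue (b i))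

/-- The row space of the Alexander matrix. -/
noncomputable def rows : Submodule ℤ[T;T⁻¹] (Fin (g + 1) → ℤ[T;T⁻¹]) :=
  LinearMap.range (Matrix.vecMulLinear D.mat)

theorem mem_rows {v : Fin (g + 1) → ℤ[T;T⁻¹]} : v ∈ D.rows ↔ ∃ u, Matrix.vecMul u D.mat = v :=
  LinearMap.mem_range

theorem fox_relK {n : F g} (hn : n ∈ relK D.glue) : D.chi n = 1 ∧ D.fox n ∈ D.rows := by
  refine D.fox_crossed.of_normalClosure D.rows _ ?_ hn
  rintro x (⟨i, hi, rfl⟩ | ⟨i, rfl⟩)
  · refine ⟨?_, ?_⟩
    · rw [chi_apply, D.lk_a i hi]; simp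
    · rw [fox_a]; exact D.rows.zero_mem
  · refine ⟨?_, ?_⟩
    · rw [chi_apply, D.lk_b i]; simp
    · rw [mem_rows]
      exact ⟨Pi.single i 1, by rw [Matrix.single_one_vecMul]; rfl⟩

theorem fox_sub_mem {x y : F g} (h : (QuotientGroup.mk x : D.knotGroup) = QuotientGroup.mk y) :
    D.fox x - D.fox y ∈ D.rows := by
  rw [QuotientGroup.eq] at h
  obtain ⟨h1, h2⟩ := D.fox_relK h
  rw [D.fox_crossed.mul, D.fox_crossed.inv] at h2
  have h3 : D.chi x • (-(D.chi x⁻¹ • D.fox x) + D.chi x⁻¹ • D.fox y) = D.fox y - D.fox x := by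
    rw [smul_add, smul_neg, smul_smul, smul_smul, ← map_mul, mul_inv_cancel, map_one, one_smul,
      one_smul]
    abel
  have h4 := D.rows.smul_mem (D.chi x) h2
  rw [h3] at h4
  rw [← neg_sub]
  exact D.rows.neg_mem h4

/-- The linking number on `π₁(M ∖ K)`. -/
theorem relK_le_ker_lk : relK D.glue ≤ D.lk.ker := by
  refine Subgroup.normalClosure_le_normal ?_
  rintro x (⟨i, hi, rfl⟩ | ⟨i, rfl⟩)
  · exact D.lk_a i hi
  · exact D.lk_b i

/-- Uniqueness of the linking number. -/
theorem lk_unique {A : Type*} [CommGroup A] (f h : F g →* A)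
    (h0 : f (a 0) = h (a 0)) (h1 : ∀ i, i ≠ 0 → f (a i) = 1) (h1' : ∀ i, i ≠ 0 → h (a i) = 1)
    (h2 : ∀ i, f (D.glue (b i)) = 1) (h2' : ∀ i, h (D.glue (b i)) = 1) : f = h := by
  let e : F g →* A := f / h
  have he : relM D.glue ≤ e.ker := by
    refine Subgroup.normalClosure_le_normal ?_
    rintro x (⟨i, rfl⟩ | ⟨i, rfl⟩)
    · show f (a i) / h (a i) = 1
      by_cases hi : i = 0
      · subst hi; rw [h0, div_self']
      · rw [h1 i hi, h1' i hi, div_one]
    · show f (D.glue (b i)) / h (D.glue (b i)) = 1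
      rw [h2 i, h2' i, div_one]
  let e' : D.manifoldGroup →* A := QuotientGroup.lift _ e he
  let e'' : Abelianization D.manifoldGroup →* A := Abelianization.lift e'
  have := D.homologySphere
  ext1 x
  have h3 : e'' (Abelianization.of (QuotientGroup.mk (FreeGroup.of x))) = 1 := by
    rw [Subsingleton.elim (Abelianization.of (QuotientGroup.mk (FreeGroup.of x)
      : D.manifoldGroup)) 1, map_one]
  have h4 : e'' (Abelianization.of (QuotientGroup.mk (FreeGroup.of x)))
      = f (FreeGroup.of x) / h (FreeGroup.of x) := by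
    simp [e'', e', e]
  rw [h4] at h3
  exact div_eq_one.mp h3

end Pair

end Pool.Agent.H85.Loop
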