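import Mathlib
import Pool.Agent.H85.LoopFox

/-!
# The Alexander determinant is an invariant of the knot group with meridian
-/

set_option autoImplicit false

namespace Pool.Agent.H85.Loop

open LaurentPolynomial

namespace Pair

variable {g g' : ℕ} (D : Pair g) (D' : Pair g')

/-- The linking number on `π₁(M ∖ K)`. -/
def lkBar : D.knotGroup →* Multiplicative ℤ :=
  QuotientGroup.lift (relK D.glue) D.lk D.relK_le_ker_lk

theorem lkBar_mk (x : F g) : D.lkBar (QuotientGroup.mk x) = D.lk x := rfl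

theorem mk_a {i : Fin (g + 1)} (hi : i ≠ 0) : (QuotientGroup.mk (a i) : D.knotGroup) = 1 := by
  rw [QuotientGroup.eq_one_iff]
  exact Subgroup.subset_normalClosure (Or.inl ⟨i, hi, rfl⟩)

theorem mk_glue_b (i : Fin (g + 1)) : (QuotientGroup.mk (D.glue (b i)) : D.knotGroup) = 1 := by
  rw [QuotientGroup.eq_one_iff]
  exact Subgroup.subset_normalClosure (Or.inr ⟨i, rfl⟩)

theorem lk_compat (θ : D.knotGroup →* D'.knotGroup) (hθ : θ D.meridian = D'.meridian)
    {x : F g} {y : F g'} (h : (QuotientGroup.mk y : D'.knotGroup) = θ (QuotientGroup.mk x)) :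
    D'.lk y = D.lk x := by
  have key : (D'.lkBar.comp θ).comp (QuotientGroup.mk' (relK D.glue)) = D.lk := by
    refine D.lk_unique _ _ ?_ ?_ D.lk_a ?_ D.lk_b
    · show D'.lkBar (θ D.meridian) = D.lk (a 0)
      rw [hθ, D.lk_zero]
      exact D'.lk_zero
    · intro i hi
      show D'.lkBar (θ (QuotientGroup.mk (a i))) = 1
      rw [D.mk_a hi, map_one, map_one]
    · intro i
      show D'.lkBar (θ (QuotientGroup.mk (D.glue (b i)))) = 1
      rw [D.mk_glue_b i, map_one, map_one]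
  rw [← key, ← D'.lkBar_mk, h]
  rfl

theorem chi_compat (θ : D.knotGroup →* D'.knotGroup) (hθ : θ D.meridian = D'.meridian)
    {x : F g} {y : F g'} (h : (QuotientGroup.mk y : D'.knotGroup) = θ (QuotientGroup.mk x)) :
    D'.chi y = D.chi x := by
  rw [chi_apply, chi_apply, lk_compat D D' θ hθ h]

/-- Naturality of the Fox derivatives. -/
theorem fox_transfer (θ : D.knotGroup →* D'.knotGroup) (hθ : θ D.meridian = D'.meridian)
    (w : Fin (g + 1) → F g')
    (hw : ∀ j, (QuotientGroup.mk (w j) : D'.knotGroup) = θ (QuotientGroup.mk (b j)))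
    (x : F g) : ∀ y : F g', (QuotientGroup.mk y : D'.knotGroup) = θ (QuotientGroup.mk x) →
      D'.fox y - Matrix.vecMul (D.fox x) (Matrix.of fun j => D'.fox (w j)) ∈ D'.rows := by
  set P : Matrix (Fin (g + 1)) (Fin (g' + 1)) ℤ[T;T⁻¹] := Matrix.of fun j => D'.fox (w j) with hP
  have step : ∀ (y z : F g'), (QuotientGroup.mk y : D'.knotGroup) = QuotientGroup.mk z →
      ∀ v, D'.fox z - v ∈ D'.rows → D'.fox y - v ∈ D'.rows := by
    intro y z hyz v hv
    have h1 := D'.fox_sub_mem hyz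
    have h2 := D'.rows.add_mem h1 hv
    rwa [sub_add_sub_cancel] at h2
  have hgen : ∀ x : Fin (g + 1) × Bool, ∀ y : F g',
      (QuotientGroup.mk y : D'.knotGroup) = θ (QuotientGroup.mk (FreeGroup.of x)) →
      D'.fox y - Matrix.vecMul (D.fox (FreeGroup.of x)) P ∈ D'.rows := by
    rintro ⟨i, c⟩ y hy
    cases c with
    | false =>
      change (QuotientGroup.mk y : D'.knotGroup) = θ (QuotientGroup.mk (a i)) at hy
      change D'.fox y - Matrix.vecMul (D.fox (a i)) P ∈ D'.rows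
      rw [D.fox_a, Matrix.zero_vecMul]
      by_cases hi : i = 0
      · subst hi
        refine step y (a 0) ?_ 0 (by rw [D'.fox_a, sub_zero]; exact D'.rows.zero_mem)
        rw [hy]
        exact hθ
      · refine step y 1 ?_ 0 (by rw [D'.fox_crossed.one, sub_zero]; exact D'.rows.zero_mem)
        rw [hy, D.mk_a hi, map_one]
        rfl
    | true =>
      change (QuotientGroup.mk y : D'.knotGroup) = θ (QuotientGroup.mk (b i)) at hy
      change D'.fox y - Matrix.vecMul (D.fox (b i)) P ∈ D'.rows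
      refine step y (w i) (by rw [hy, hw]) _ ?_
      rw [D.fox_b, Matrix.single_one_vecMul]
      have : P.row i = D'.fox (w i) := rfl
      rw [this, sub_self]
      exact D'.rows.zero_mem
  induction x using FreeGroup.induction_on with
  | C1 =>
    intro y hy
    refine step y 1 (by rw [hy]; exact map_one θ) _ ?_
    rw [D.fox_crossed.one, D'.fox_crossed.one, Matrix.zero_vecMul, sub_zero]
    exact D'.rows.zero_mem
  | of x => exact hgen x
  | inv_of x hx =>
    intro y hy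
    have hy' : (QuotientGroup.mk y⁻¹ : D'.knotGroup) = θ (QuotientGroup.mk (FreeGroup.of x)) := by
      rw [QuotientGroup.mk_inv, hy, QuotientGroup.mk_inv, map_inv, inv_inv]
    have h1 := hx _ hy'
    have hc := chi_compat D D' θ hθ hy
    rw [D.fox_crossed.inv]
    rw [D'.fox_crossed.inv] at h1
    have h2 := D'.rows.smul_mem (D'.chi y) h1
    have h3 : D'.chi y • (-(D'.chi y⁻¹ • D'.fox y) - Matrix.vecMul (D.fox (FreeGroup.of x)) P)
        = -(D'.fox y - Matrix.vecMul (-(D.chi (FreeGroup.of x)⁻¹ • D.fox (FreeGroup.of x))) P) := by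
      rw [smul_sub, smul_neg, smul_smul, ← map_mul, mul_inv_cancel, map_one, one_smul, hc,
        Matrix.neg_vecMul, Matrix.smul_vecMul]
      abel
    rw [h3] at h2
    exact (Submodule.neg_mem_iff _).mp h2
  | mul x₁ x₂ h₁ h₂ =>
    intro y hy
    obtain ⟨y₁, hy₁⟩ := QuotientGroup.mk_surjective (θ (QuotientGroup.mk x₁))
    obtain ⟨y₂, hy₂⟩ := QuotientGroup.mk_surjective (θ (QuotientGroup.mk x₂))
    refine step y (y₁ * y₂) ?_ _ ?_
    · rw [hy, QuotientGroup.mk_mul, QuotientGroup.mk_mul, map_mul, hy₁, hy₂]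
    · rw [D.fox_crossed.mul, D'.fox_crossed.mul, chi_compat D D' θ hθ hy₁, Matrix.add_vecMul,
        Matrix.smul_vecMul]
      have h3 := D'.rows.add_mem (h₁ y₁ hy₁) (D'.rows.smul_mem (D.chi x₁) (h₂ y₂ hy₂))
      convert h3 using 1
      rw [smul_sub]
      abel

theorem exists_mul_of_rows {m : ℕ} (A : Matrix (Fin m) (Fin (g + 1)) ℤ[T;T⁻¹])
    (hA : ∀ i, A i ∈ D.rows) : ∃ U : Matrix (Fin m) (Fin (g + 1)) ℤ[T;T⁻¹], U * D.mat = A := by
  choose u hu using fun i => (D.mem_rows).mp (hA i)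
  refine ⟨Matrix.of u, ?_⟩
  funext i
  rw [Matrix.mul_apply_eq_vecMul]
  exact hu i

theorem one_row {n : ℕ} (j : Fin n) :
    (1 : Matrix (Fin n) (Fin n) ℤ[T;T⁻¹]) j = Pi.single j 1 := by
  funext k
  rw [Matrix.one_apply, Pi.single_apply]
  simp only [eq_comm]

/-- The Alexander determinants of two pairs with the same knot group and meridian are
associated. -/
theorem det_associated_of_eq (θ : D.knotGroup ≃* D'.knotGroup)
    (hθ : θ D.meridian = D'.meridian) : Associated D.mat.det D'.mat.det := by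
  have hθ' : θ.symm D'.meridian = D.meridian := by rw [← hθ, MulEquiv.symm_apply_apply]
  choose w hw using fun j : Fin (g + 1) =>
    QuotientGroup.mk_surjective (s := relK D'.glue) (θ (QuotientGroup.mk (b j)))
  choose v hv using fun j : Fin (g' + 1) =>
    QuotientGroup.mk_surjective (s := relK D.glue) (θ.symm (QuotientGroup.mk (b j)))
  set P : Matrix (Fin (g + 1)) (Fin (g' + 1)) ℤ[T;T⁻¹] := Matrix.of fun j => D'.fox (w j) with hP
  set Q : Matrix (Fin (g' + 1)) (Fin (g + 1)) ℤ[T;T⁻¹] := Matrix.of fun j => D.fox (v j) with hQ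
  have tP := fox_transfer D D' θ.toMonoidHom hθ w hw
  have tQ := fox_transfer D' D θ.symm.toMonoidHom hθ' v hv
  -- `D.mat * P = U * D'.mat`
  obtain ⟨U, hU⟩ := D'.exists_mul_of_rows (D.mat * P) (by
    intro i
    have h1 := tP (D.glue (b i)) 1 (by
      show _ = θ (QuotientGroup.mk (D.glue (b i)))
      rw [D.mk_glue_b, map_one]; rfl)
    rw [D'.fox_crossed.one, zero_sub] at h1
    rw [Matrix.mul_apply_eq_vecMul]
    exact (Submodule.neg_mem_iff _).mp h1)
  obtain ⟨U', hU'⟩ := D.exists_mul_of_rows (D'.mat * Q) (by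
    intro i
    have h1 := tQ (D'.glue (b i)) 1 (by
      show _ = θ.symm (QuotientGroup.mk (D'.glue (b i)))
      rw [D'.mk_glue_b, map_one]; rfl)
    rw [D.fox_crossed.one, zero_sub] at h1
    rw [Matrix.mul_apply_eq_vecMul]
    exact (Submodule.neg_mem_iff _).mp h1)
  -- `P * Q - 1 = Z * D.mat`
  obtain ⟨Z, hZ⟩ := D.exists_mul_of_rows
    (P * Q - (1 : Matrix (Fin (g + 1)) (Fin (g + 1)) ℤ[T;T⁻¹])) (by
    intro j
    have h1 := tQ (w j) (b j) (by
      show _ = θ.symm (QuotientGroup.mk (w j))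
      rw [hw, MulEquiv.symm_apply_apply])
    rw [D.fox_b] at h1
    have h2 : (P * Q - (1 : Matrix (Fin (g + 1)) (Fin (g + 1)) ℤ[T;T⁻¹])) j
        = -(Pi.single j 1 - Matrix.vecMul (D'.fox (w j)) Q) := by
      have h3 : (P * Q - (1 : Matrix (Fin (g + 1)) (Fin (g + 1)) ℤ[T;T⁻¹])) j
          = (P * Q) j - (1 : Matrix (Fin (g + 1)) (Fin (g + 1)) ℤ[T;T⁻¹]) j := rfl
      rw [h3, Matrix.mul_apply_eq_vecMul, neg_sub, one_row]
      rfl
    rw [h2]
    exact (Submodule.neg_mem_iff _).mpr h1)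
  obtain ⟨Z', hZ'⟩ := D'.exists_mul_of_rows
    (Q * P - (1 : Matrix (Fin (g' + 1)) (Fin (g' + 1)) ℤ[T;T⁻¹])) (by
    intro j
    have h1 := tP (v j) (b j) (by
      show _ = θ (QuotientGroup.mk (v j))
      rw [hv, MulEquiv.apply_symm_apply])
    rw [D'.fox_b] at h1
    have h2 : (Q * P - (1 : Matrix (Fin (g' + 1)) (Fin (g' + 1)) ℤ[T;T⁻¹])) j
        = -(Pi.single j 1 - Matrix.vecMul (D.fox (v j)) P) := by
      have h3 : (Q * P - (1 : Matrix (Fin (g' + 1)) (Fin (g' + 1)) ℤ[T;T⁻¹])) j = (Q * P) j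
          - (1 : Matrix (Fin (g' + 1)) (Fin (g' + 1)) ℤ[T;T⁻¹]) j := rfl
      rw [h3, Matrix.mul_apply_eq_vecMul, neg_sub, one_row]
      rfl
    rw [h2]
    exact (Submodule.neg_mem_iff _).mpr h1)
  have e1 : Matrix.fromBlocks D.mat 0 (-Q) 1
      = Matrix.fromBlocks D.mat U (-Q) (-Z') * Matrix.fromBlocks 1 (-P) 0 D'.mat := by
    rw [Matrix.fromBlocks_multiply]
    congr 1
    · simp
    · rw [hU]; simp
    · simp
    · rw [Matrix.neg_mul, Matrix.mul_neg, neg_neg, Matrix.neg_mul, hZ']; simp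
  have e2 : Matrix.fromBlocks 1 (-P) 0 D'.mat
      = Matrix.fromBlocks (-Z) (-P) U' D'.mat * Matrix.fromBlocks D.mat 0 (-Q) 1 := by
    rw [Matrix.fromBlocks_multiply]
    congr 1
    · rw [Matrix.neg_mul, Matrix.mul_neg, Matrix.neg_mul, neg_neg, hZ]; simp
    · simp
    · rw [Matrix.mul_neg, hU']; simp
    · simp
  refine associated_of_dvd_dvd ?_ ?_
  · have := congrArg Matrix.det e2
    simp only [Matrix.det_mul, Matrix.det_fromBlocks_zero₁₂, Matrix.det_fromBlocks_zero₂₁,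
      Matrix.det_one, one_mul, mul_one] at this
    exact ⟨_, by rw [this, mul_comm]⟩
  · have := congrArg Matrix.det e1
    simp only [Matrix.det_mul, Matrix.det_fromBlocks_zero₁₂, Matrix.det_fromBlocks_zero₂₁,
      Matrix.det_one, one_mul, mul_one] at this
    exact ⟨_, by rw [this, mul_comm]⟩

theorem det_associated (h : SameGroup D D') : Associated D.mat.det D'.mat.det := by
  obtain ⟨θ, hθ⟩ := h
  obtain ⟨c, hc⟩ := isConj_iff.mp hθ
  refine det_associated_of_eq D D' (θ.trans (MulAut.conj c)) ?_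
  rw [MulEquiv.trans_apply, MulAut.conj_apply]
  exact hc

end Pair

/-! ### Units of `ℤ[T;T⁻¹]` -/

theorem norm_eval_unit {u : ℤ[T;T⁻¹]} (hu : IsUnit u) (ζ : ℂˣ) (hζ : ‖(ζ : ℂ)‖ = 1) :
    ‖eval₂ (Int.castRingHom ℂ) ζ u‖ = 1 := by
  have hT : ∀ n : ℤ, ‖eval₂ (Int.castRingHom ℂ) ζ (T n)‖ = 1 := by
    intro n
    rw [eval₂_T, Units.val_zpow_eq_zpow_val, norm_zpow, hζ, one_zpow]
  obtain ⟨v, hv⟩ := hu.exists_right_inv
  obtain ⟨m, U, hU⟩ := exists_T_pow u
  obtain ⟨n, V, hV⟩ := exists_T_pow v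
  have h1 : U * V = Polynomial.X ^ (m + n) := by
    apply Polynomial.toLaurent_injective
    rw [map_mul, hU, hV, Polynomial.toLaurent_X_pow]
    push_cast
    rw [T_add, ← T_mul (m : ℤ) u]
    calc T (m : ℤ) * u * (v * T (n : ℤ)) = (u * v) * (T (m : ℤ) * T (n : ℤ)) := by ring
      _ = _ := by rw [hv, one_mul]
  have h2 : U ∣ Polynomial.X ^ (m + n) := ⟨V, h1.symm⟩
  obtain ⟨k, -, hk⟩ := (dvd_prime_pow Polynomial.prime_X (m + n)).mp h2
  obtain ⟨e, he⟩ := hk.symm
  have h3 : ‖eval₂ (Int.castRingHom ℂ) ζ (Polynomial.toLaurent U)‖ = 1 := by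
    rw [← he, map_mul, map_mul, norm_mul, Polynomial.toLaurent_X_pow, hT, one_mul]
    obtain ⟨c, hc, hc'⟩ := Polynomial.isUnit_iff.mp e.isUnit
    rw [← hc', Polynomial.toLaurent_C, eval₂_C]
    rcases Int.isUnit_iff.mp hc with rfl | rfl <;> simp
  rw [hU, map_mul, norm_mul, hT, mul_one] at h3
  exact h3

end Pool.Agent.H85.Loop
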