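import Mathlib
import Pool.Agent.H85.LoopInv

/-!
# Invariance under mod `p` loop moves
-/

set_option autoImplicit false

namespace Pool.Agent.H85.Loop

open LaurentPolynomial
open scoped commutatorElement

section Eval

variable {g : ℕ}

theorem Crossed.map {G R S : Type*} [Group G] [CommRing R] [CommRing S] {n : ℕ} {χ : G →* R}
    {δ : G → (Fin n → R)} (h : Crossed χ δ) (f : R →+* S) :
    Crossed (f.toMonoidHom.comp χ) (fun w j => f (δ w j)) where
  mul v w := by
    funext j
    have := congrFun (h.mul v w) j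
    simp only [Pi.add_apply, Pi.smul_apply, smul_eq_mul] at this ⊢
    rw [this, map_add, map_mul]
    rfl

theorem Crossed.comp_equiv {G R M : Type*} [Group G] [CommRing R] [AddCommGroup M] [Module R M]
    {χ : G →* R} {δ : G → M} (h : Crossed χ δ) (τ : G ≃* G) :
    Crossed (χ.comp τ.toMonoidHom) (fun w => δ (τ w)) where
  mul v w := by
    show δ (τ (v * w)) = _
    rw [map_mul, h.mul]
    rfl

theorem TorelliOn.comp_eq {I : Set (Fin (g + 1))} {τ : F g ≃* F g} (h : TorelliOn I τ)
    {A : Type*} [CommGroup A] (f : F g →* A) (x : F g) : f (τ x) = f x := by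
  have hcomm : ⁅handleSubgroup I, handleSubgroup I⁆ ≤ f.ker := by
    rw [Subgroup.commutator_le]
    intro x _ y _
    rw [MonoidHom.mem_ker, commutatorElement_def, map_mul, map_mul, map_mul, map_inv, map_inv,
      mul_comm (f x), mul_assoc, mul_assoc, ← mul_assoc (f x), mul_inv_cancel, one_mul,
      mul_inv_cancel]
  have key : f.comp τ.toMonoidHom = f := by
    ext1 ⟨i, c⟩
    show f (τ (FreeGroup.of (i, c))) = f (FreeGroup.of (i, c))
    by_cases hi : i ∈ I
    · obtain ⟨h1, h2⟩ := h.on i hi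
      cases c with
      | false =>
        have h3 := hcomm h1
        rw [MonoidHom.mem_ker, map_mul, map_inv, inv_mul_eq_one] at h3
        exact h3.symm
      | true =>
        have h3 := hcomm h2
        rw [MonoidHom.mem_ker, map_mul, map_inv, inv_mul_eq_one] at h3
        exact h3.symm
    · obtain ⟨h1, h2⟩ := h.off i hi
      cases c with
      | false => exact congrArg f h1
      | true => exact congrArg f h2
  exact DFunLike.congr_fun key x

theorem LoopMove.lk_eq {p : ℕ} {D D' : Pair g} (h : LoopMove p D D') : D'.lk = D.lk := by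
  obtain ⟨I, τ, h0, hI, hτ, hglue⟩ := h
  refine D'.lk_unique _ _ ?_ D'.lk_a D.lk_a D'.lk_b ?_
  · rw [D'.lk_zero, D.lk_zero]
  · intro i
    rw [hglue, hτ.comp_eq, D.lk_b]

theorem Pair.fox_eq {D D' : Pair g} (h : D'.lk = D.lk) (x : F g) : D'.fox x = D.fox x := by
  have hchi : D'.chi = D.chi := by rw [Pair.chi, Pair.chi, h]
  have h1 := D'.fox_crossed
  rw [hchi] at h1
  refine h1.ext_free D.fox_crossed ?_ x
  rintro ⟨i, c⟩
  cases c with
  | false => exact (D'.fox_a i).trans (D.fox_a i).symm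
  | true => exact (D'.fox_b i).trans (D.fox_b i).symm

/-- The invariant: the absolute value of the Alexander polynomial at `ζ`. -/
noncomputable def Pair.absAlex (D : Pair g) (ζ : ℂˣ) : ℝ :=
  ‖eval₂ (Int.castRingHom ℂ) ζ D.mat.det‖

theorem LoopMove.det_eval {p : ℕ} {D D' : Pair g} (h : LoopMove p D D') (ζ : ℂˣ)
    (hζ : ζ ^ p = 1) :
    eval₂ (Int.castRingHom ℂ) ζ D'.mat.det = eval₂ (Int.castRingHom ℂ) ζ D.mat.det := by
  have hlk := h.lk_eq
  obtain ⟨I, τ, h0, hI, hτ, hglue⟩ := h
  set ev : ℤ[T;T⁻¹] →+* ℂ := eval₂ (Int.castRingHom ℂ) ζ with hev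
  have hcr := D.fox_crossed.map ev
  set χ : F g →* ℂ := ev.toMonoidHom.comp D.chi with hχ
  have hχapp : ∀ x, χ x = ((ζ ^ (Multiplicative.toAdd (D.lk x)) : ℂˣ) : ℂ) := by
    intro x
    show ev (D.chi x) = _
    rw [D.chi_apply, hev, eval₂_T]
  set δ : F g → (Fin (g + 1) → ℂ) := fun w j => ev (D.fox w j) with hδ
  -- `χ` is trivial on the handles in `I`
  have hH : ∀ x ∈ handleSubgroup I, χ x = 1 := by
    intro x hx
    have : handleSubgroup I ≤ χ.ker := by
      rw [handleSubgroup, Subgroup.closure_le]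
      rintro x ⟨i, hi, rfl | rfl⟩
      · have hi0 : i ≠ 0 := fun hh => h0 (hh ▸ hi)
        rw [SetLike.mem_coe, MonoidHom.mem_ker, hχapp, D.lk_a i hi0]
        simp
      · rw [SetLike.mem_coe, MonoidHom.mem_ker, hχapp]
        obtain ⟨k, hk⟩ := hI i hi
        rw [hk, zpow_mul, zpow_natCast, hζ, one_zpow]
        simp
    exact this hx
  have hlevel : ∀ x ∈ ⁅handleSubgroup I, handleSubgroup I⁆, χ x = 1 ∧ δ x = 0 := by
    intro x hx
    have : ⁅handleSubgroup I, handleSubgroup I⁆ ≤ hcr.level ⊥ := by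
      rw [Subgroup.commutator_le]
      intro x hx y hy
      have hx1 := hH x hx
      have hy1 := hH y hy
      have hx2 := hH x⁻¹ (inv_mem hx)
      have hy2 := hH y⁻¹ (inv_mem hy)
      refine ⟨?_, ?_⟩
      · show χ _ = 1
        rw [commutatorElement_def, map_mul, map_mul, map_mul, hx1, hy1, hx2, hy2]
        simp
      · rw [Submodule.mem_bot]
        show δ _ = 0
        rw [commutatorElement_def, hcr.mul, hcr.mul, hcr.mul, hcr.inv, hcr.inv, map_mul, map_mul,
          map_mul, hx1, hy1, hx2, hy2]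
        simp only [one_smul, mul_one]
        abel
    exact this hx
  have hχτ : χ.comp τ.toMonoidHom = χ := by
    refine DFunLike.ext _ _ fun x => ?_
    show χ (τ x) = χ x
    rw [hχapp, hχapp, hτ.comp_eq]
  have hcr' := hcr.comp_equiv τ
  rw [hχτ] at hcr'
  have hmain : ∀ x, δ (τ x) = δ x := by
    intro x
    refine hcr'.ext_free hcr ?_ x
    have haux : ∀ y : F g, y⁻¹ * τ y ∈ ⁅handleSubgroup I, handleSubgroup I⁆ → δ (τ y) = δ y := by
      intro y hy
      obtain ⟨-, h2⟩ := hlevel _ hy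
      have h3 : τ y = y * (y⁻¹ * τ y) := by group
      rw [h3, hcr.mul, h2, smul_zero, add_zero]
    rintro ⟨i, c⟩
    show δ (τ (FreeGroup.of (i, c))) = δ (FreeGroup.of (i, c))
    by_cases hi : i ∈ I
    · obtain ⟨h1, h2⟩ := hτ.on i hi
      cases c with
      | false => exact haux _ h1
      | true => exact haux _ h2
    · obtain ⟨h1, h2⟩ := hτ.off i hi
      cases c with
      | false => exact congrArg δ h1
      | true => exact congrArg δ h2
  rw [RingHom.map_det, RingHom.map_det]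
  congr 1
  funext i j
  show ev (D'.fox (D'.glue (b i)) j) = ev (D.fox (D.glue (b i)) j)
  rw [Pair.fox_eq hlk, hglue]
  exact congrFun (hmain (D.glue (b i))) j

theorem SameGroup.absAlex_eq {g' : ℕ} {D : Pair g} {D' : Pair g'} (h : SameGroup D D') (ζ : ℂˣ)
    (hζ : ‖(ζ : ℂ)‖ = 1) : D.absAlex ζ = D'.absAlex ζ := by
  obtain ⟨u, hu⟩ := D.det_associated D' h
  rw [Pair.absAlex, Pair.absAlex, ← hu, map_mul, norm_mul, norm_eval_unit u.isUnit ζ hζ, mul_one]

theorem Step.absAlex_eq {p : ℕ} (ζ : ℂˣ) (hζ : ζ ^ p = 1) (hnorm : ‖(ζ : ℂ)‖ = 1)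
    {X Y : Σ g, Pair g} (h : Step p X Y) : X.2.absAlex ζ = Y.2.absAlex ζ := by
  cases h with
  | same D D' hD => exact hD.absAlex_eq ζ hnorm
  | loop D D' hD => exact congrArg norm (hD.det_eval ζ hζ).symm

/-- The absolute value of the Alexander polynomial at a `p`-th root of unity is invariant under
mod `p` loop moves. -/
theorem Related.absAlex_eq {p : ℕ} (hp : p ≠ 0) {g' : ℕ} {D : Pair g} {D' : Pair g'}
    (h : Related p D D') (ζ : ℂˣ) (hζ : ζ ^ p = 1) : D.absAlex ζ = D'.absAlex ζ := by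
  have hnorm : ‖(ζ : ℂ)‖ = 1 := by
    have h1 : (ζ : ℂ) ^ p = 1 := by
      rw [← Units.val_pow_eq_pow_val, hζ, Units.val_one]
    exact Complex.norm_eq_one_of_pow_eq_one h1 hp
  have key : ∀ X Y : Σ g, Pair g, Relation.EqvGen (Step p) X Y →
      X.2.absAlex ζ = Y.2.absAlex ζ := by
    intro X Y hXY
    induction hXY with
    | rel X Y hs => exact hs.absAlex_eq ζ hζ hnorm
    | refl X => exact Eq.refl _
    | symm X Y _ ih => exact ih.symm
    | trans X Y Z _ _ ih1 ih2 => exact ih1.trans ih2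
  have h' : Relation.EqvGen (Step p) (⟨g, D⟩ : Σ g, Pair g) ⟨g', D'⟩ := h
  have := key ⟨g, D⟩ ⟨g', D'⟩ h'
  exact this

end Eval

end Pool.Agent.H85.Loop
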