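import Mathlib
import Pool.Agent.H85.LoopMoveInv

/-!
# The unknot and the trefoil knot as pairs
-/

set_option autoImplicit false

namespace Pool.Agent.H85.Loop

open LaurentPolynomial
open scoped commutatorElement

/-! ### The unknot -/

theorem relM_refl_eq_top : relM (MulEquiv.refl (F 0)) = ⊤ := by
  rw [eq_top_iff, ← FreeGroup.closure_range_of, Subgroup.closure_le]
  rintro _ ⟨⟨i, c⟩, rfl⟩
  cases c with
  | false => exact Subgroup.subset_normalClosure (Or.inl ⟨i, rfl⟩)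
  | true => exact Subgroup.subset_normalClosure (Or.inr ⟨i, rfl⟩)

theorem subsingleton_quotient_of_eq_top {G : Type*} [Group G] {N : Subgroup G} (h : N = ⊤) :
    Subsingleton (G ⧸ N) := by
  subst h
  exact QuotientGroup.subsingleton_quotient_top

theorem subsingleton_abelianization {G : Type*} [Group G] [Subsingleton G] :
    Subsingleton (Abelianization G) :=
  ⟨fun x y => by
    obtain ⟨x, rfl⟩ := QuotientGroup.mk_surjective x
    obtain ⟨y, rfl⟩ := QuotientGroup.mk_surjective y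
    rw [Subsingleton.elim x y]⟩

/-- The linking number with the unknot. -/
def lkUnknot : F 0 →* Multiplicative ℤ :=
  FreeGroup.lift fun x => if x.2 then 1 else Multiplicative.ofAdd 1

/-- The unknot in the 3-sphere, in the Heegaard splitting of genus one. -/
def unknot : Pair 0 where
  glue := MulEquiv.refl _
  glue_bdry := rfl
  homologySphere := by
    have := subsingleton_quotient_of_eq_top relM_refl_eq_top
    exact subsingleton_abelianization
  lk := lkUnknot
  lk_zero := by simp [lkUnknot, a]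
  lk_a i hi := absurd (Fin.fin_one_eq_zero i) hi
  lk_b i := by simp [lkUnknot, b]

/-! ### The trefoil knot -/

/-- Images of the generators under the gluing map. -/
def trefoilFun : Fin 2 × Bool → F 1
  | (0, false) => a 0 * a 1 * b 1
  | (0, true) => (b 1)⁻¹ * (a 1)⁻¹ * b 0 * (b 1)⁻¹ * (a 1)⁻¹ * (a 0)⁻¹
  | (1, false) => (b 1)⁻¹ * (a 1)⁻¹ * b 0 * a 0 * a 1 * b 1 * (a 0)⁻¹ * (b 0)⁻¹ * a 1 * b 1
  | (1, true) => b 1 * a 1 * b 1 * (a 0)⁻¹ * (b 0)⁻¹ * a 1 * b 1

/-- Images of the generators under the inverse of the gluing map. -/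
def trefoilInv : Fin 2 × Bool → F 1
  | (0, false) => (a 0)⁻¹ * (b 0)⁻¹ * (a 1)⁻¹ * b 0 * a 0 * a 0
  | (0, true) => (a 0)⁻¹ * (a 0)⁻¹ * (b 0)⁻¹ * a 1 * b 0 * a 0 * a 0 * b 0 * a 0
  | (1, false) => (a 0)⁻¹ * (a 0)⁻¹ * (b 0)⁻¹ * a 1 * a 1 * a 1 * (b 1)⁻¹
  | (1, true) => b 1 * (a 1)⁻¹ * (a 1)⁻¹ * b 0 * a 0 * a 0

theorem trefoil_left : (FreeGroup.lift trefoilInv).comp (FreeGroup.lift trefoilFun)
    = MonoidHom.id (F 1) := by
  ext1 ⟨i, c⟩
  fin_cases i <;> cases c <;>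
    simp only [MonoidHom.comp_apply, FreeGroup.lift_apply_of, trefoilFun, trefoilInv, a, b, map_mul,
      map_inv, MonoidHom.id_apply, Fin.zero_eta, Fin.mk_one] <;>
    group

theorem trefoil_right : (FreeGroup.lift trefoilFun).comp (FreeGroup.lift trefoilInv)
    = MonoidHom.id (F 1) := by
  ext1 ⟨i, c⟩
  fin_cases i <;> cases c <;>
    simp only [MonoidHom.comp_apply, FreeGroup.lift_apply_of, trefoilFun, trefoilInv, a, b, map_mul,
      map_inv, MonoidHom.id_apply, Fin.zero_eta, Fin.mk_one] <;>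
    group

/-- The gluing map. -/
def trefoilGlue : F 1 ≃* F 1 :=
  MonoidHom.toMulEquiv (FreeGroup.lift trefoilFun) (FreeGroup.lift trefoilInv)
    trefoil_left trefoil_right

theorem trefoilGlue_apply (x : F 1) : trefoilGlue x = FreeGroup.lift trefoilFun x := rfl

theorem trefoilGlue_bdry : trefoilGlue (bdry 1) = bdry 1 := by
  rw [trefoilGlue_apply, bdry]
  simp only [List.ofFn_succ, List.ofFn_zero, List.prod_cons, List.prod_nil, map_mul, map_inv,
    FreeGroup.lift_apply_of, trefoilFun, a, b, mul_one]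
  simp only [Fin.isValue, Fin.succ_zero_eq_one]
  group

/-- The linking number with the trefoil knot. -/
def lkTrefoil : F 1 →* Multiplicative ℤ :=
  FreeGroup.lift fun x => match x with
    | (0, false) => Multiplicative.ofAdd 1
    | (0, true) => Multiplicative.ofAdd 5
    | (1, false) => 1
    | (1, true) => Multiplicative.ofAdd 2

theorem lkT_a0 : lkTrefoil (a 0) = Multiplicative.ofAdd 1 := by simp [lkTrefoil, a]
theorem lkT_a1 : lkTrefoil (a 1) = 1 := by simp [lkTrefoil, a]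
theorem lkT_b0 : lkTrefoil (b 0) = Multiplicative.ofAdd 5 := by simp [lkTrefoil, b]
theorem lkT_b1 : lkTrefoil (b 1) = Multiplicative.ofAdd 2 := by simp [lkTrefoil, b]

theorem glue_b0 : trefoilGlue (b 0)
    = (b 1)⁻¹ * (a 1)⁻¹ * b 0 * (b 1)⁻¹ * (a 1)⁻¹ * (a 0)⁻¹ := by
  rw [trefoilGlue_apply, b, FreeGroup.lift_apply_of]
  rfl

theorem glue_b1 : trefoilGlue (b 1)
    = b 1 * a 1 * b 1 * (a 0)⁻¹ * (b 0)⁻¹ * a 1 * b 1 := by
  rw [trefoilGlue_apply, b, FreeGroup.lift_apply_of]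
  rfl

/-- The group-theoretic content of the two relations. -/
theorem relations {G : Type*} [Group G] {A B C : G}
    (h1 : C⁻¹ * B * C⁻¹ * A⁻¹ = 1) (h2 : C * C * A⁻¹ * B⁻¹ * C = 1) :
    A = C⁻¹ * (B * C⁻¹) ∧ (B * C⁻¹) ^ 2 = C ^ 3 := by
  have hA : A = C⁻¹ * (B * C⁻¹) := by
    have : C⁻¹ * B * C⁻¹ = A := mul_inv_eq_one.mp h1
    rw [← this]; group
  refine ⟨hA, ?_⟩
  rw [hA] at h2
  have h4 : C⁻¹ * (C * (C * C * (C⁻¹ * (B * C⁻¹))⁻¹ * B⁻¹ * C) * C⁻¹)⁻¹ * C = 1 := by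
    rw [h2]; group
  have h5 : (B * C⁻¹) ^ 2 * (C ^ 3)⁻¹ = 1 := by
    have h6 : (B * C⁻¹) ^ 2 * (C ^ 3)⁻¹
        = C * (C⁻¹ * (C * (C * C * (C⁻¹ * (B * C⁻¹))⁻¹ * B⁻¹ * C) * C⁻¹)⁻¹ * C) * C⁻¹ := by
      rw [pow_two, pow_succ, pow_two]
      group
    rw [h6, h4]
    group
  exact mul_inv_eq_one.mp h5

theorem relM_trefoil_eq_top : relM trefoilGlue = ⊤ := by
  have hq : ∀ x : F 1, (QuotientGroup.mk x : F 1 ⧸ relM trefoilGlue) = 1 := by
    have ha0 : (QuotientGroup.mk (a 0) : F 1 ⧸ relM trefoilGlue) = 1 := by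
      rw [QuotientGroup.eq_one_iff]
      exact Subgroup.subset_normalClosure (Or.inl ⟨0, rfl⟩)
    have ha1 : (QuotientGroup.mk (a 1) : F 1 ⧸ relM trefoilGlue) = 1 := by
      rw [QuotientGroup.eq_one_iff]
      exact Subgroup.subset_normalClosure (Or.inl ⟨1, rfl⟩)
    have hb0 : (QuotientGroup.mk (trefoilGlue (b 0)) : F 1 ⧸ relM trefoilGlue) = 1 := by
      rw [QuotientGroup.eq_one_iff]
      exact Subgroup.subset_normalClosure (Or.inr ⟨0, rfl⟩)
    have hb1 : (QuotientGroup.mk (trefoilGlue (b 1)) : F 1 ⧸ relM trefoilGlue) = 1 := by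
      rw [QuotientGroup.eq_one_iff]
      exact Subgroup.subset_normalClosure (Or.inr ⟨1, rfl⟩)
    rw [glue_b0] at hb0
    rw [glue_b1] at hb1
    simp only [QuotientGroup.mk_mul, QuotientGroup.mk_inv, ha0, ha1, inv_one, mul_one] at hb0 hb1
    set B : F 1 ⧸ relM trefoilGlue := QuotientGroup.mk (b 0)
    set C : F 1 ⧸ relM trefoilGlue := QuotientGroup.mk (b 1)
    -- `C⁻¹ B C⁻¹ = 1`, `C C B⁻¹ C = 1`
    have hB : B = C * C := by
      have h := congrArg (fun x => C * x * C) hb0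
      simp only [mul_one] at h
      rw [← h]; group
    have hC : C = 1 := by
      rw [hB] at hb1
      rw [← hb1]; group
    have hB' : B = 1 := by rw [hB, hC, mul_one]
    intro x
    have : QuotientGroup.mk' (relM trefoilGlue) = 1 := by
      ext1 ⟨i, c⟩
      fin_cases i <;> cases c
      · exact ha0
      · exact hB'
      · exact ha1
      · exact hC
    exact DFunLike.congr_fun this x
  rw [eq_top_iff]
  intro x _
  exact (QuotientGroup.eq_one_iff x).mp (hq x)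

/-- The trefoil knot in the 3-sphere, in a Heegaard splitting of genus two. -/
def trefoil : Pair 1 where
  glue := trefoilGlue
  glue_bdry := trefoilGlue_bdry
  homologySphere := by
    have := subsingleton_quotient_of_eq_top relM_trefoil_eq_top
    exact subsingleton_abelianization
  lk := lkTrefoil
  lk_zero := lkT_a0
  lk_a i hi := by
    fin_cases i
    · exact absurd rfl hi
    · exact lkT_a1
  lk_b i := by
    fin_cases i
    · show lkTrefoil (trefoilGlue (b 0)) = 1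
      rw [glue_b0]
      simp only [map_mul, map_inv, lkT_a0, lkT_a1, lkT_b0, lkT_b1]
      rfl
    · show lkTrefoil (trefoilGlue (b 1)) = 1
      rw [glue_b1]
      simp only [map_mul, map_inv, lkT_a0, lkT_a1, lkT_b0, lkT_b1]
      rfl

/-! ### The determinants -/

theorem unknot_det : unknot.mat.det = 1 := by
  have : unknot.mat = 1 := by
    funext i
    have h1 : unknot.mat i = unknot.fox (b i) := rfl
    rw [h1, unknot.fox_b, Pair.one_row]
  rw [this, Matrix.det_one]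

theorem chi_inv {g : ℕ} (D : Pair g) (x : F g) :
    D.chi x⁻¹ = T (-(Multiplicative.toAdd (D.lk x))) := by
  rw [D.chi_apply, map_inv, toAdd_inv]

theorem chi_a0 : trefoil.chi (a 0) = T 1 := by
  show T (Multiplicative.toAdd (lkTrefoil (a 0))) = _
  rw [lkT_a0, toAdd_ofAdd]
theorem chi_a1 : trefoil.chi (a 1) = 1 := by
  show T (Multiplicative.toAdd (lkTrefoil (a 1))) = _
  rw [lkT_a1, toAdd_one, T_zero]
theorem chi_b0 : trefoil.chi (b 0) = T 5 := by
  show T (Multiplicative.toAdd (lkTrefoil (b 0))) = _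
  rw [lkT_b0, toAdd_ofAdd]
theorem chi_b1 : trefoil.chi (b 1) = T 2 := by
  show T (Multiplicative.toAdd (lkTrefoil (b 1))) = _
  rw [lkT_b1, toAdd_ofAdd]
theorem chi_a0' : trefoil.chi (a 0)⁻¹ = T (-1) := by
  rw [chi_inv]
  show T (-Multiplicative.toAdd (lkTrefoil (a 0))) = _
  rw [lkT_a0, toAdd_ofAdd]
theorem chi_a1' : trefoil.chi (a 1)⁻¹ = 1 := by
  rw [chi_inv]
  show T (-Multiplicative.toAdd (lkTrefoil (a 1))) = _
  rw [lkT_a1, toAdd_one, neg_zero, T_zero]
theorem chi_b0' : trefoil.chi (b 0)⁻¹ = T (-5) := by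
  rw [chi_inv]
  show T (-Multiplicative.toAdd (lkTrefoil (b 0))) = _
  rw [lkT_b0, toAdd_ofAdd]
theorem chi_b1' : trefoil.chi (b 1)⁻¹ = T (-2) := by
  rw [chi_inv]
  show T (-Multiplicative.toAdd (lkTrefoil (b 1))) = _
  rw [lkT_b1, toAdd_ofAdd]

theorem trefoil_row0 : trefoil.fox (trefoilGlue (b 0))
    = (T (-2) : ℤ[T;T⁻¹]) • Pi.single 0 1 - (T (-2) + T 1 : ℤ[T;T⁻¹]) • Pi.single 1 1 := by
  have hc := trefoil.fox_crossed
  rw [glue_b0]
  simp only [hc.mul, hc.inv, trefoil.fox_a, trefoil.fox_b, map_mul, chi_a0, chi_a1, chi_b0, chi_b1,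
    chi_a0', chi_a1', chi_b0', chi_b1', smul_zero, neg_zero, add_zero, mul_one, smul_neg, smul_smul,
    ← T_add]
  norm_num
  rw [add_smul]
  abel

theorem trefoil_row1 : trefoil.fox (trefoilGlue (b 1))
    = (-T (-2) : ℤ[T;T⁻¹]) • Pi.single 0 1 + (1 + T 2 + T (-2) : ℤ[T;T⁻¹]) • Pi.single 1 1 := by
  have hc := trefoil.fox_crossed
  rw [glue_b1]
  simp only [hc.mul, hc.inv, trefoil.fox_a, trefoil.fox_b, map_mul, chi_a0, chi_a1, chi_b0, chi_b1,
    chi_a0', chi_a1', chi_b0', chi_b1', smul_zero, neg_zero, add_zero, mul_one, smul_neg, smul_smul,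
    ← T_add]
  norm_num
  rw [add_smul, add_smul, one_smul]
  abel

theorem trefoil_det : trefoil.mat.det = T (-2) * (T 2 - T 1 + 1) := by
  have h0 : trefoil.mat 0
      = (T (-2) : ℤ[T;T⁻¹]) • Pi.single 0 1 - (T (-2) + T 1 : ℤ[T;T⁻¹]) • Pi.single 1 1 :=
    trefoil_row0
  have h1 : trefoil.mat 1
      = (-T (-2) : ℤ[T;T⁻¹]) • Pi.single 0 1 + (1 + T 2 + T (-2) : ℤ[T;T⁻¹]) • Pi.single 1 1 :=
    trefoil_row1
  have e00 : trefoil.mat 0 0 = T (-2) := by rw [h0]; simp
  have e01 : trefoil.mat 0 1 = -(T (-2) + T 1) := by rw [h0]; simp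
  have e10 : trefoil.mat 1 0 = -T (-2) := by rw [h1]; simp
  have e11 : trefoil.mat 1 1 = 1 + T 2 + T (-2) := by rw [h1]; simp
  rw [Matrix.det_fin_two, e00, e01, e10, e11]
  ring

end Pool.Agent.H85.Loop
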