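import Mathlib
import Pool.Agent.H85.LoopExample

/-!
# The branched covers of the two examples are homology spheres
-/

set_option autoImplicit false

namespace Pool.Agent.H85.Loop

open scoped commutatorElement

section

variable {g : ℕ} (D : Pair g) (p : ℕ)

theorem Pair.pow_mem_ker (x : D.orbGroup p) : x ^ p ∈ (D.lkMod p).ker := by
  rw [MonoidHom.mem_ker, map_pow]
  apply Multiplicative.toAdd.injective
  rw [toAdd_pow, toAdd_one, nsmul_eq_mul, ZMod.natCast_self, zero_mul]

theorem Pair.subsingleton_branchedH1 (h : ∀ x ∈ (D.lkMod p).ker,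
    x ∈ ⁅(D.lkMod p).ker, (D.lkMod p).ker⁆) : Subsingleton (D.branchedH1 p) := by
  have key : ∀ y : D.branchedH1 p, y = 1 := by
    intro y
    obtain ⟨y, rfl⟩ := QuotientGroup.mk_surjective y
    refine (QuotientGroup.eq_one_iff (N := commutator (D.lkMod p).ker) y).mpr ?_
    have h1 := h y.1 y.2
    rw [← Subgroup.map_subtype_commutator] at h1
    obtain ⟨z, hz, hz'⟩ := h1
    have : z = y := Subtype.ext hz'
    rw [← this]
    exact hz
  exact ⟨fun x y => by rw [key x, key y]⟩

/-- If all generators become powers of the meridian in a quotient `Q`, with exponent their linking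
number, then the kernel of the linking number mod `p` dies in `Q`. -/
theorem Pair.eq_one_of_ker {Q : Type*} [Group Q] (π : D.orbGroup p →* Q)
    (hπ : ∀ x : Fin (g + 1) × Bool, π (QuotientGroup.mk (FreeGroup.of x))
      = π (QuotientGroup.mk (a 0)) ^ (Multiplicative.toAdd (D.lk (FreeGroup.of x))))
    (y : D.orbGroup p) (hy : y ∈ (D.lkMod p).ker) : π y = 1 := by
  set A : Q := π (QuotientGroup.mk (a 0)) with hA
  have hAp : A ^ p = 1 := by
    rw [hA, ← map_pow, ← QuotientGroup.mk_pow]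
    have : (QuotientGroup.mk ((a 0) ^ p) : D.orbGroup p) = 1 := by
      rw [QuotientGroup.eq_one_iff]
      exact Subgroup.subset_normalClosure (Or.inr rfl)
    rw [this, map_one]
  have key : π.comp (QuotientGroup.mk' (relO D.glue p)) = (zpowersHom Q A).comp D.lk := by
    ext1 x
    rw [MonoidHom.comp_apply, MonoidHom.comp_apply, zpowersHom_apply]
    exact hπ x
  obtain ⟨x, rfl⟩ := QuotientGroup.mk_surjective y
  have h1 : π (QuotientGroup.mk x) = A ^ Multiplicative.toAdd (D.lk x) := by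
    have := DFunLike.congr_fun key x
    rw [MonoidHom.comp_apply, MonoidHom.comp_apply, zpowersHom_apply] at this
    exact this
  have h2 : ((Multiplicative.toAdd (D.lk x) : ℤ) : ZMod p) = 0 := by
    have h3 : D.lkModFree p x = 1 := hy
    exact congrArg Multiplicative.toAdd h3
  obtain ⟨k, hk⟩ := (ZMod.intCast_zmod_eq_zero_iff_dvd _ _).mp h2
  rw [h1, hk, zpow_mul, zpow_natCast, hAp, one_zpow]

end

theorem unknot_branchedH1 (p : ℕ) : Subsingleton (unknot.branchedH1 p) := by
  refine unknot.subsingleton_branchedH1 p ?_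
  intro x hx
  have h := unknot.eq_one_of_ker p (MonoidHom.id _) (by
    rintro ⟨i, c⟩
    obtain rfl := Fin.fin_one_eq_zero i
    cases c with
    | false =>
      have h1 : unknot.lk (FreeGroup.of (0, false)) = Multiplicative.ofAdd 1 := unknot.lk_zero
      rw [h1, toAdd_ofAdd, zpow_one]
      rfl
    | true =>
      have h1 : unknot.lk (FreeGroup.of (0, true)) = 1 := unknot.lk_b 0
      rw [h1, toAdd_one, zpow_zero]
      show (QuotientGroup.mk (FreeGroup.of (0, true)) : unknot.orbGroup p) = 1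
      rw [QuotientGroup.eq_one_iff]
      exact Subgroup.subset_normalClosure (Or.inl (Or.inr ⟨0, rfl⟩))) x hx
  have h' : x = 1 := h
  rw [h']
  exact one_mem _

theorem commute_of_pow {G : Type*} [Group G] {c b : G} (h : c ^ 2 = b ^ 3) {p : ℕ}
    (h2 : ¬ 2 ∣ p) (h3 : ¬ 3 ∣ p) (hp : Commute (c ^ p) (b ^ p)) : Commute c b := by
  have cancel : ∀ {x u y : G}, Commute (x * u) y → Commute u y → Commute x y := by
    intro x u y hxu hu
    have := hxu.mul_left hu.inv_left
    rwa [mul_inv_cancel_right] at this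
  have hzc : Commute (b ^ 3) c := by rw [← h]; exact (Commute.refl c).pow_left 2
  have hzb : Commute (b ^ 3) b := (Commute.refl b).pow_left 3
  obtain ⟨k, hk⟩ : ∃ k, p = 2 * k + 1 := ⟨p / 2, by omega⟩
  have hc : c ^ p = c * (b ^ 3) ^ k := by
    rw [hk, pow_succ, pow_mul, h]
    exact (hzc.pow_left k).eq
  have hcomm1 : Commute c (b ^ p) := by
    rw [hc] at hp
    exact cancel hp ((hzb.pow_left k).pow_right p)
  rcases (by omega : p % 3 = 1 ∨ p % 3 = 2) with hm | hm
  · obtain ⟨m, hm'⟩ : ∃ m, p = 3 * m + 1 := ⟨p / 3, by omega⟩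
    have hb : b ^ p = b * (b ^ 3) ^ m := by
      rw [hm', pow_succ, pow_mul]
      exact (hzb.pow_left m).eq
    rw [hb] at hcomm1
    exact (cancel hcomm1.symm (hzc.pow_left m)).symm
  · obtain ⟨m, hm'⟩ : ∃ m, p = 3 * m + 2 := ⟨p / 3, by omega⟩
    have hb : b ^ p = b ^ 2 * (b ^ 3) ^ m := by
      rw [hm', pow_add, pow_mul]
      exact ((hzb.pow_left m).pow_right 2).eq
    rw [hb] at hcomm1
    have h4 : Commute (b ^ 2) c := cancel hcomm1.symm (hzc.pow_left m)
    have h5 := hzc.mul_left h4.inv_left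
    have h6 : b ^ 3 * (b ^ 2)⁻¹ = b := by rw [pow_succ']; group
    rw [h6] at h5
    exact h5.symm

theorem trefoil_branchedH1 {p : ℕ} (h2 : ¬ 2 ∣ p) (h3 : ¬ 3 ∣ p) :
    Subsingleton (trefoil.branchedH1 p) := by
  refine trefoil.subsingleton_branchedH1 p ?_
  intro x hx
  set K : Subgroup (trefoil.orbGroup p) := (trefoil.lkMod p).ker with hK
  let π : trefoil.orbGroup p →* trefoil.orbGroup p ⧸ ⁅K, K⁆ := QuotientGroup.mk' ⁅K, K⁆
  suffices hs : π x = 1 from (QuotientGroup.eq_one_iff x).mp hs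
  have hcomm : ∀ u v : trefoil.orbGroup p, u ∈ K → v ∈ K → Commute (π u) (π v) := by
    intro u v hu hv
    rw [← commutatorElement_eq_one_iff_commute, ← map_commutatorElement]
    exact (QuotientGroup.eq_one_iff _).mpr (Subgroup.commutator_mem_commutator hu hv)
  have ha1 : (QuotientGroup.mk (a 1) : trefoil.orbGroup p) = 1 := by
    rw [QuotientGroup.eq_one_iff]
    exact Subgroup.subset_normalClosure (Or.inl (Or.inl ⟨1, by decide, rfl⟩))
  have hb0 : (QuotientGroup.mk (trefoilGlue (b 0)) : trefoil.orbGroup p) = 1 := by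
    rw [QuotientGroup.eq_one_iff]
    exact Subgroup.subset_normalClosure (Or.inl (Or.inr ⟨0, rfl⟩))
  have hb1 : (QuotientGroup.mk (trefoilGlue (b 1)) : trefoil.orbGroup p) = 1 := by
    rw [QuotientGroup.eq_one_iff]
    exact Subgroup.subset_normalClosure (Or.inl (Or.inr ⟨1, rfl⟩))
  rw [glue_b0] at hb0
  rw [glue_b1] at hb1
  simp only [QuotientGroup.mk_mul, QuotientGroup.mk_inv, ha1, inv_one, mul_one] at hb0 hb1
  obtain ⟨r1, r2⟩ := relations hb0 hb1
  set A : trefoil.orbGroup p := QuotientGroup.mk (a 0)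
  set B : trefoil.orbGroup p := QuotientGroup.mk (b 0)
  set C : trefoil.orbGroup p := QuotientGroup.mk (b 1)
  have r2' : π (B * C⁻¹) ^ 2 = π C ^ 3 := by rw [← map_pow, ← map_pow, r2]
  have hcc : Commute (π (B * C⁻¹)) (π C) := by
    refine commute_of_pow r2' h2 h3 ?_
    rw [← map_pow, ← map_pow]
    exact hcomm _ _ (trefoil.pow_mem_ker p _) (trefoil.pow_mem_ker p _)
  have r1' : π A = (π C)⁻¹ * π (B * C⁻¹) := by rw [r1, map_mul, map_inv]
  have hA2 : π A ^ 2 = π C := by
    rw [r1', (hcc.symm.inv_left).mul_pow, r2', inv_pow, pow_succ (π C) 2, ← mul_assoc,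
      inv_mul_cancel, one_mul]
  have hA5 : π A ^ 5 = π B := by
    have h5 : π A ^ 5 = (π A ^ 2) ^ 2 * π A := by rw [← pow_mul, ← pow_succ]
    rw [h5, hA2, r1', ← mul_assoc, pow_two, mul_assoc (π C), mul_inv_cancel, mul_one, ← hcc.eq,
      ← map_mul, inv_mul_cancel_right]
  refine trefoil.eq_one_of_ker p π ?_ x hx
  rintro ⟨i, c⟩
  fin_cases i <;> cases c
  · show π A = π A ^ (Multiplicative.toAdd (lkTrefoil (a 0)))
    rw [lkT_a0, toAdd_ofAdd, zpow_one]
  · show π B = π A ^ (Multiplicative.toAdd (lkTrefoil (b 0)))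
    rw [lkT_b0, toAdd_ofAdd, ← hA5]
    rfl
  · show π (QuotientGroup.mk (a 1)) = π A ^ (Multiplicative.toAdd (lkTrefoil (a 1)))
    rw [lkT_a1, toAdd_one, zpow_zero, ha1, map_one]
  · show π C = π A ^ (Multiplicative.toAdd (lkTrefoil (b 1)))
    rw [lkT_b1, toAdd_ofAdd, ← hA2]
    rfl

end Pool.Agent.H85.Loop
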