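import Mathlib

/-!
# Selection principles for dense families: definitions

These are the notions of the problem `MP_9098dd_gt`, written literally.
-/

set_option autoImplicit false

namespace Pool.Agent.H85.Sel

open Set

universe u

/-- `DD X` is the collection (written `D` in the problem) of all families of open subsets of `X`
whose union is dense in `X`. -/
def DD (X : Type u) [TopologicalSpace X] : Set (Set (Set X)) :=
  {U | (∀ u ∈ U, IsOpen u) ∧ Dense (⋃₀ U)}

/-- `DOmega X` is the collection (written `D_Ω` in the problem) of all `U ∈ DD X` such that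
no member of `U` is dense in `X`, and for every finite collection `F` of nonempty open subsets
of `X` some member of `U` meets every member of `F`. -/
def DOmega (X : Type u) [TopologicalSpace X] : Set (Set (Set X)) :=
  {U | U ∈ DD X ∧ (∀ u ∈ U, ¬ (Set.univ : Set X) ⊆ closure u) ∧
    ∀ F : Set (Set X), F.Finite → (∀ f ∈ F, IsOpen f ∧ f.Nonempty) →
      ∃ u ∈ U, ∀ f ∈ F, (u ∩ f).Nonempty}

/-- The selection principle `S_1(A, B)`. -/
def SOne {X : Type u} (A B : Set (Set (Set X))) : Prop :=
  ∀ U : ℕ → Set (Set X), (∀ n, U n ∈ A) →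
    ∃ V : ℕ → Set X, (∀ n, V n ∈ U n) ∧ Set.range V ∈ B

/-- The selection principle `S_fin(A, B)`. -/
def SFin {X : Type u} (A B : Set (Set (Set X))) : Prop :=
  ∀ U : ℕ → Set (Set X), (∀ n, U n ∈ A) →
    ∃ F : ℕ → Set (Set X), (∀ n, (F n).Finite ∧ F n ⊆ U n) ∧ (⋃ n, F n) ∈ B

/-- The countable chain condition: every family of pairwise disjoint nonempty open sets is
countable. -/
def CCC (X : Type u) [TopologicalSpace X] : Prop :=
  ∀ A : Set (Set X), (∀ a ∈ A, IsOpen a ∧ a.Nonempty) → A.PairwiseDisjoint id → A.Countable

end Pool.Agent.H85.Sel
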