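import Mathlib

/-!
# Martin's axiom at `ℵ₁` and free Suslin trees: definitions
-/

set_option autoImplicit false

namespace Pool.Agent.H85.Sel

open Set

/-- Two elements of a preordered set are compatible if they have a common lower bound
(a common extension, for forcing notions). -/
def Compat {P : Type} [Preorder P] (a b : P) : Prop := ∃ r, r ≤ a ∧ r ≤ b

/-- A preordered set is ccc if every set of pairwise incompatible elements is countable. -/
def PosetCCC (P : Type) [Preorder P] : Prop :=
  ∀ A : Set P, A.Pairwise (fun a b => ¬ Compat a b) → A.Countable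

/-- Martin's axiom `MA_{ℵ₁}`: for every nonempty ccc preordered set `P` and every family of at
most `ℵ₁` dense subsets of `P` there is a filter of `P` meeting all of them. -/
def MartinAxiomAlephOne : Prop :=
  ∀ (P : Type) [Preorder P] [Nonempty P], PosetCCC P →
    ∀ (I : Type), Cardinal.mk I ≤ Cardinal.aleph 1 → ∀ D : I → Set P,
      (∀ i, ∀ p, ∃ q ∈ D i, q ≤ p) →
      ∃ G : Set P, G.Nonempty ∧ (∀ a ∈ G, ∀ b, a ≤ b → b ∈ G) ∧
        (∀ a ∈ G, ∀ b ∈ G, ∃ r ∈ G, r ≤ a ∧ r ≤ b) ∧ ∀ i, (G ∩ D i).Nonempty

/-- `T`, with the height function `ht`, is a free Suslin tree (growing upwards): a normal tree of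
height `ω₁` with countable levels such that, for pairwise distinct nodes `t 0, …, t (n-1)` of the
same height, the product of the cones above the `t i` is ccc. -/
structure IsFreeSuslinTree (T : Type) [PartialOrder T] (ht : T → Ordinal.{0}) : Prop where
  /-- all heights are countable ordinals -/
  ht_lt : ∀ t : T, ht t < Ordinal.omega 1
  /-- the height function is strictly monotone -/
  ht_strictMono : StrictMono ht
  /-- every node has exactly one predecessor (in the weak sense) at every level up to its own -/
  exists_unique_pred : ∀ (t : T) (α : Ordinal.{0}), α ≤ ht t → ∃! s : T, s ≤ t ∧ ht s = α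
  /-- the levels are countable -/
  level_countable : ∀ α : Ordinal.{0}, {t : T | ht t = α}.Countable
  /-- the tree is nonempty -/
  nonempty : Nonempty T
  /-- every node has extensions at all higher countable levels -/
  exists_ext : ∀ (t : T) (α : Ordinal.{0}), ht t ≤ α → α < Ordinal.omega 1 →
    ∃ s : T, t ≤ s ∧ ht s = α
  /-- every node has two incompatible extensions -/
  split : ∀ t : T, ∃ a b : T, t ≤ a ∧ t ≤ b ∧ ¬ ∃ c : T, a ≤ c ∧ b ≤ c
  /-- freeness: the product of the cones above distinct nodes of the same height is ccc -/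
  free : ∀ (n : ℕ) (t : Fin n → T), Function.Injective t → (∀ i j, ht (t i) = ht (t j)) →
    ∀ A : Set (Fin n → T), (∀ x ∈ A, ∀ i, t i ≤ x i) →
      A.Pairwise (fun x y => ¬ ∃ z : Fin n → T, ∀ i, x i ≤ z i ∧ y i ≤ z i) → A.Countable

end Pool.Agent.H85.Sel
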