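import Mathlib
import Pool.Agent.H85.SelDefs

set_option autoImplicit false

namespace Pool.Agent.H85.Sel

open Set

universe u v w

variable {X : Type u} [TopologicalSpace X]

/-- A pair of sets is good if they are disjoint or their union is preirreducible. -/
def Good (a b : Set X) : Prop := Disjoint a b ∨ IsPreirreducible (a ∪ b)

lemma Good.mono {a b a' b' : Set X} (h : Good a b) (ha : IsOpen a') (hb : IsOpen b')
    (ha' : a' ⊆ a) (hb' : b' ⊆ b) : Good a' b' := by
  rcases h with h | h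
  · exact Or.inl (h.mono ha' hb')
  · exact Or.inr (h.open_subset (ha.union hb) (union_subset_union ha' hb'))

lemma Good.symm {a b : Set X} (h : Good a b) : Good b a := by
  rcases h with h | h
  · exact Or.inl h.symm
  · right; rwa [union_comm]

/-- Two nonempty open sets can be shrunk to a good pair. -/
lemma exists_good_pair (a b : Set X) (ha : IsOpen a) (hb : IsOpen b) (ha' : a.Nonempty)
    (hb' : b.Nonempty) :
    ∃ a' b' : Set X, IsOpen a' ∧ IsOpen b' ∧ a'.Nonempty ∧ b'.Nonempty ∧ a' ⊆ a ∧ b' ⊆ b ∧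
      Good a' b' := by
  by_cases h : Disjoint a b
  · exact ⟨a, b, ha, hb, ha', hb', Subset.rfl, Subset.rfl, Or.inl h⟩
  have hne : (a ∩ b).Nonempty := not_disjoint_iff_nonempty_inter.1 h
  by_cases hp : IsPreirreducible (a ∩ b)
  · exact ⟨a ∩ b, a ∩ b, ha.inter hb, ha.inter hb, hne, hne, inter_subset_left,
      inter_subset_right, Or.inr (by simpa using hp)⟩
  · simp only [IsPreirreducible, not_forall] at hp
    obtain ⟨u, v, hu, hv, hau, hav, hemp⟩ := hp
    refine ⟨a ∩ b ∩ u, a ∩ b ∩ v, (ha.inter hb).inter hu, (ha.inter hb).inter hv, hau, hav,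
      fun x hx => hx.1.1, fun x hx => hx.1.2, Or.inl ?_⟩
    rw [disjoint_iff_inter_eq_empty]
    rw [not_nonempty_iff_eq_empty] at hemp
    rw [← hemp]
    ext x
    simp only [mem_inter_iff]
    tauto

/-- Shrinking one family member at a pair of indices. -/
lemma exists_good_update {ι : Type v} [DecidableEq ι] (s : ι → Set X)
    (hs : ∀ i, IsOpen (s i) ∧ (s i).Nonempty) (i j : ι) (hij : i ≠ j) :
    ∃ s' : ι → Set X, (∀ i, IsOpen (s' i) ∧ (s' i).Nonempty ∧ s' i ⊆ s i) ∧
      Good (s' i) (s' j) := by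
  obtain ⟨a', b', h1, h2, h3, h4, h5, h6, h7⟩ := exists_good_pair (s i) (s j) (hs i).1 (hs j).1
    (hs i).2 (hs j).2
  refine ⟨Function.update (Function.update s i a') j b', ?_, ?_⟩
  · intro k
    by_cases hk : k = j
    · subst hk; simpa using ⟨h2, h4, h6⟩
    · rw [Function.update_of_ne hk]
      by_cases hk' : k = i
      · subst hk'; simpa using ⟨h1, h3, h5⟩
      · rw [Function.update_of_ne hk']
        exact ⟨(hs k).1, (hs k).2, Subset.rfl⟩
  · rw [Function.update_self, Function.update_of_ne hij, Function.update_self]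
    exact h7

/-- Every finite family of nonempty open sets can be shrunk to a pairwise good one. -/
lemma exists_good_family {ι : Type v} [Finite ι] (s : ι → Set X)
    (hs : ∀ i, IsOpen (s i) ∧ (s i).Nonempty) :
    ∃ s' : ι → Set X, (∀ i, IsOpen (s' i) ∧ (s' i).Nonempty ∧ s' i ⊆ s i) ∧
      ∀ i j, i ≠ j → Good (s' i) (s' j) := by
  classical
  have := Fintype.ofFinite ι
  have key : ∀ T : Finset (ι × ι), ∃ s' : ι → Set X,
      (∀ i, IsOpen (s' i) ∧ (s' i).Nonempty ∧ s' i ⊆ s i) ∧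
      ∀ p ∈ T, p.1 ≠ p.2 → Good (s' p.1) (s' p.2) := by
    intro T
    induction T using Finset.induction_on with
    | empty => exact ⟨s, fun i => ⟨(hs i).1, (hs i).2, Subset.rfl⟩, by simp⟩
    | insert p T _ ih =>
      obtain ⟨s1, h1, h2⟩ := ih
      by_cases hp : p.1 = p.2
      · refine ⟨s1, h1, ?_⟩
        intro q hq hq'
        rcases Finset.mem_insert.1 hq with rfl | hq
        · exact absurd hp hq'
        · exact h2 q hq hq'
      · obtain ⟨s2, h3, h4⟩ := exists_good_update s1 (fun i => ⟨(h1 i).1, (h1 i).2.1⟩) p.1 p.2 hp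
        refine ⟨s2, fun i => ⟨(h3 i).1, (h3 i).2.1, (h3 i).2.2.trans (h1 i).2.2⟩, ?_⟩
        intro q hq hq'
        rcases Finset.mem_insert.1 hq with rfl | hq
        · exact h4
        · exact (h2 q hq hq').mono (h3 _).1 (h3 _).1 (h3 _).2.2 (h3 _).2.2
  obtain ⟨s', h1, h2⟩ := key Finset.univ
  exact ⟨s', h1, fun i j hij => h2 (i, j) (Finset.mem_univ _) hij⟩

/-- A nonempty open set can be shrunk so as to be inside or disjoint from finitely many given
open sets. -/
lemma exists_adapted {ι : Type v} [Finite ι] (s : ι → Set X) (hs : ∀ i, IsOpen (s i))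
    (F : Set X) (hF : IsOpen F) (hF' : F.Nonempty) :
    ∃ f : Set X, IsOpen f ∧ f.Nonempty ∧ f ⊆ F ∧ ∀ i, f ⊆ s i ∨ Disjoint f (s i) := by
  classical
  have := Fintype.ofFinite ι
  have key : ∀ T : Finset ι, ∃ f : Set X, IsOpen f ∧ f.Nonempty ∧ f ⊆ F ∧
      ∀ i ∈ T, f ⊆ s i ∨ Disjoint f (s i) := by
    intro T
    induction T using Finset.induction_on with
    | empty => exact ⟨F, hF, hF', Subset.rfl, by simp⟩
    | insert j T _ ih =>
      obtain ⟨f, h1, h2, h3, h4⟩ := ih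
      by_cases h : Disjoint f (s j)
      · refine ⟨f, h1, h2, h3, ?_⟩
        intro i hi
        rcases Finset.mem_insert.1 hi with rfl | hi
        · exact Or.inr h
        · exact h4 i hi
      · refine ⟨f ∩ s j, h1.inter (hs j), not_disjoint_iff_nonempty_inter.1 h,
          inter_subset_left.trans h3, ?_⟩
        intro i hi
        rcases Finset.mem_insert.1 hi with rfl | hi
        · exact Or.inl inter_subset_right
        · rcases h4 i hi with h5 | h5
          · exact Or.inl (inter_subset_left.trans h5)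
          · exact Or.inr (h5.mono_left inter_subset_left)
  obtain ⟨f, h1, h2, h3, h4⟩ := key Finset.univ
  exact ⟨f, h1, h2, h3, fun i => h4 i (Finset.mem_univ _)⟩

/-- Finite intersections inside preirreducible sets. -/
lemma preirreducible_iInter {ι : Type v} [Finite ι] {A : Set X} (hA : IsPreirreducible A)
    (hne : A.Nonempty) (h : ι → Set X) (P : ι → Prop) (hopen : ∀ i, IsOpen (h i))
    (hmeet : ∀ i, P i → (A ∩ h i).Nonempty) :
    (A ∩ ⋂ i, {x | P i → x ∈ h i}).Nonempty := by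
  classical
  have := Fintype.ofFinite ι
  have key : ∀ T : Finset ι, (A ∩ ⋂ i ∈ T, {x | P i → x ∈ h i}).Nonempty ∧
      IsOpen (⋂ i ∈ T, {x | P i → x ∈ h i}) := by
    intro T
    have hop : ∀ i, IsOpen {x | P i → x ∈ h i} := by
      intro i
      by_cases hi : P i
      · simpa [hi] using hopen i
      · simp [hi]
    induction T using Finset.induction_on with
    | empty => simpa using hne
    | insert j T _ ih =>
      obtain ⟨h1, h2⟩ := ih
      have h3 : (A ∩ {x | P j → x ∈ h j}).Nonempty := by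
        by_cases hj : P j
        · simpa [hj] using hmeet j hj
        · simpa [hj] using hne
      have h4 := hA _ _ (hop j) h2 h3 h1
      simp only [Finset.mem_insert, iInter_iInter_eq_or_left]
      exact ⟨h4, (hop j).inter h2⟩
  have := (key Finset.univ).1
  simpa using this

/-- One step of shrinking. -/
lemma shrink_one {ι : Type v} [Finite ι] {C : Type w} (s : ι → Set X)
    (hgood : ∀ i j, i ≠ j → Good (s i) (s j)) (f : C → Set X)
    (hf : ∀ c, IsOpen (f c) ∧ (f c).Nonempty) (t : ι → C) (ht : ∀ i, f (t i) ⊆ s i)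
    (W : Set (Set (ι → X))) (hW : W ∈ DD (ι → X)) :
    ∃ g : C → Set X, (∀ c, IsOpen (g c) ∧ (g c).Nonempty ∧ g c ⊆ f c) ∧
      ∃ w ∈ W, univ.pi (fun i => g (t i)) ⊆ w := by
  classical
  have hbox : IsOpen (univ.pi (fun i => f (t i))) :=
    isOpen_set_pi finite_univ (fun i _ => (hf (t i)).1)
  have hne : (univ.pi (fun i => f (t i))).Nonempty :=
    univ_pi_nonempty_iff.2 (fun i => (hf (t i)).2)
  obtain ⟨y, hy1, w, hw, hyw⟩ := hW.2.inter_open_nonempty _ hbox hne
  obtain ⟨h, hh, hhw⟩ := isOpen_pi_iff'.1 (hW.1 w hw) y hyw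
  have hyf : ∀ i, y i ∈ f (t i) := fun i => hy1 i (mem_univ _)
  refine ⟨fun c => f c ∩ ⋂ i, {x | t i = c → x ∈ h i}, ?_, w, hw, ?_⟩
  · intro c
    refine ⟨?_, ?_, inter_subset_left⟩
    · refine (hf c).1.inter (isOpen_iInter_of_finite ?_)
      intro i
      by_cases hi : t i = c
      · simpa [hi] using (hh i).1
      · simp [hi]
    · by_cases hex : ∃ i j, i ≠ j ∧ t i = c ∧ t j = c
      · obtain ⟨i, j, hij, hi, hj⟩ := hex
        have h1 : f c ⊆ s i := hi ▸ ht i
        have h2 : f c ⊆ s j := hj ▸ ht j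
        have hpre : IsPreirreducible (f c) := by
          rcases hgood i j hij with hd | hp
          · obtain ⟨x, hx⟩ := (hf c).2
            exact absurd (h2 hx) (Set.disjoint_left.1 hd (h1 hx))
          · exact hp.open_subset (hf c).1 (h1.trans subset_union_left)
        refine preirreducible_iInter hpre (hf c).2 h (fun i => t i = c) (fun i => (hh i).1) ?_
        intro k hk
        exact ⟨y k, hk ▸ hyf k, (hh k).2⟩
      · push Not at hex
        by_cases hex2 : ∃ i, t i = c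
        · obtain ⟨i, hi⟩ := hex2
          refine ⟨y i, hi ▸ hyf i, mem_iInter.2 ?_⟩
          intro j hj
          by_cases hij : i = j
          · subst hij; exact (hh i).2
          · exact absurd hj (hex i j hij hi)
        · push Not at hex2
          obtain ⟨x, hx⟩ := (hf c).2
          exact ⟨x, hx, mem_iInter.2 (fun j hj => absurd hj (hex2 j))⟩
  · intro z hz
    apply hhw
    intro i _
    have := (hz i (mem_univ _)).2
    exact mem_iInter.1 this i rfl

/-- Many steps of shrinking. -/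
lemma shrink_many {ι : Type v} [Finite ι] {C : Type w} (s : ι → Set X)
    (hgood : ∀ i j, i ≠ j → Good (s i) (s j)) (f : C → Set X)
    (hf : ∀ c, IsOpen (f c) ∧ (f c).Nonempty)
    (W : (ι → C) → Set (Set (ι → X))) (hW : ∀ t, W t ∈ DD (ι → X))
    (T : Finset (ι → C)) (hT : ∀ t ∈ T, ∀ i, f (t i) ⊆ s i) :
    ∃ g : C → Set X, (∀ c, IsOpen (g c) ∧ (g c).Nonempty ∧ g c ⊆ f c) ∧
      ∀ t ∈ T, ∃ w ∈ W t, univ.pi (fun i => g (t i)) ⊆ w := by
  classical
  induction T using Finset.induction_on with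
  | empty => exact ⟨f, fun c => ⟨(hf c).1, (hf c).2, Subset.rfl⟩, by simp⟩
  | insert t T _ ih =>
    obtain ⟨g, h1, h2⟩ := ih (fun t' ht' => hT t' (Finset.mem_insert_of_mem ht'))
    obtain ⟨g', h3, h4⟩ := shrink_one s hgood g (fun c => ⟨(h1 c).1, (h1 c).2.1⟩) t
      (fun i => (h1 _).2.2.trans (hT t (Finset.mem_insert_self _ _) i)) (W t) (hW t)
    refine ⟨g', fun c => ⟨(h3 c).1, (h3 c).2.1, (h3 c).2.2.trans (h1 c).2.2⟩, ?_⟩
    intro t' ht'
    rcases Finset.mem_insert.1 ht' with rfl | ht'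
    · exact h4
    · obtain ⟨w, hw, hw'⟩ := h2 t' ht'
      exact ⟨w, hw, (pi_mono (fun i _ => (h3 _).2.2)).trans hw'⟩

/-- The main combinatorial lemma: a finite family `F` of nonempty open sets is met by an open
set `U` such that the part of the power of `U` inside the box given by `s` is covered by finitely
many members of prescribed families with dense union, one for each tuple. -/
lemma exists_cover {ι : Type v} [Finite ι] (s : ι → Set X) (hs : ∀ i, IsOpen (s i))
    (hgood : ∀ i j, i ≠ j → Good (s i) (s j))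
    {C : Type w} [Finite C] (F : C → Set X) (hF : ∀ c, IsOpen (F c) ∧ (F c).Nonempty)
    (W : (ι → C) → Set (Set (ι → X))) (hW : ∀ t, W t ∈ DD (ι → X)) :
    ∃ U : Set X, IsOpen U ∧ (∀ c, (U ∩ F c).Nonempty) ∧
      ∃ (T : Finset (ι → C)) (w : (ι → C) → Set (ι → X)), (∀ t ∈ T, w t ∈ W t) ∧
        univ.pi (fun i => U ∩ s i) ⊆ ⋃ t ∈ T, w t := by
  classical
  have := Fintype.ofFinite ι
  have := Fintype.ofFinite C
  choose f hf1 hf2 hf3 hf4 using fun c => exists_adapted s hs (F c) (hF c).1 (hF c).2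
  let T : Finset (ι → C) := Finset.univ.filter (fun t => ∀ i, f (t i) ⊆ s i)
  obtain ⟨g, hg1, hg2⟩ := shrink_many s hgood f (fun c => ⟨hf1 c, hf2 c⟩) W hW T
    (fun t ht => (Finset.mem_filter.1 ht).2)
  have hg2' : ∀ t : ι → C, ∃ w : Set (ι → X), t ∈ T → (w ∈ W t ∧
      univ.pi (fun i => g (t i)) ⊆ w) := by
    intro t
    by_cases ht : t ∈ T
    · obtain ⟨w, h1, h2⟩ := hg2 t ht
      exact ⟨w, fun _ => ⟨h1, h2⟩⟩
    · exact ⟨∅, fun h => absurd h ht⟩
  choose w hw using hg2'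
  refine ⟨⋃ c, g c, isOpen_iUnion (fun c => (hg1 c).1), ?_, T, w, fun t ht => (hw t ht).1, ?_⟩
  · intro c
    obtain ⟨x, hx⟩ := (hg1 c).2.1
    exact ⟨x, mem_iUnion.2 ⟨c, hx⟩, hf3 c ((hg1 c).2.2 hx)⟩
  · intro z hz
    have h1 : ∀ i, ∃ c, z i ∈ g c := fun i => mem_iUnion.1 (hz i (mem_univ _)).1
    choose t ht using h1
    have htT : t ∈ T := by
      refine Finset.mem_filter.2 ⟨Finset.mem_univ _, fun i => ?_⟩
      rcases hf4 (t i) i with h2 | h2
      · exact h2
      · exact absurd (hz i (mem_univ _)).2 (Set.disjoint_left.1 h2 ((hg1 _).2.2 (ht i)))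
    exact mem_biUnion htT ((hw t htT).2 (fun i _ => ht i))

lemma DD_nonempty {Y : Type v} [TopologicalSpace Y] [Nonempty Y] {W : Set (Set Y)}
    (hW : W ∈ DD Y) : W.Nonempty := by
  obtain ⟨y, hy⟩ := hW.2.nonempty
  obtain ⟨w, hw, _⟩ := hy
  exact ⟨w, hw⟩

lemma DOmega_of {Y : Type v} [TopologicalSpace Y] {U : Set (Set Y)} (h1 : ∀ u ∈ U, IsOpen u)
    (h2 : ∀ u ∈ U, ¬ Dense u)
    (h3 : ∀ F : Set (Set Y), F.Finite → (∀ f ∈ F, IsOpen f ∧ f.Nonempty) →
      ∃ u ∈ U, ∀ f ∈ F, (u ∩ f).Nonempty) : U ∈ DOmega Y := by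
  refine ⟨⟨h1, ?_⟩, ?_, h3⟩
  · rw [dense_iff_inter_open]
    intro O hO hne
    obtain ⟨u, hu, hu'⟩ := h3 {O} (finite_singleton _) (by simpa using ⟨hO, hne⟩)
    obtain ⟨x, hx1, hx2⟩ := hu' O (mem_singleton _)
    exact ⟨x, hx2, u, hu, hx1⟩
  · intro u hu h
    exact h2 u hu (fun x => h (mem_univ x))

lemma not_dense_of_mem_DOmega {Y : Type v} [TopologicalSpace Y] {U : Set (Set Y)}
    (h : U ∈ DOmega Y) {u : Set Y} (hu : u ∈ U) : ¬ Dense u := by
  intro hd
  exact h.2.1 u hu (fun x _ => hd x)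

lemma dense_box {ι : Type v} [Finite ι] {s : ι → Set X} (hs : ∀ i, IsOpen (s i)) {A : Set (ι → X)}
    (h : ∀ k : ι → Set X, (∀ i, IsOpen (k i) ∧ (k i).Nonempty ∧ k i ⊆ s i) →
      (univ.pi k ∩ A).Nonempty) : univ.pi s ⊆ closure A := by
  intro y hy
  rw [mem_closure_iff]
  intro O hO hyO
  obtain ⟨k, hk, hkO⟩ := isOpen_pi_iff'.1 hO y hyO
  have := h (fun i => k i ∩ s i) (fun i => ⟨(hk i).1.inter (hs i),
    ⟨y i, (hk i).2, hy i (mem_univ _)⟩, inter_subset_right⟩)
  obtain ⟨x, hx1, hx2⟩ := this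
  exact ⟨x, hkO (fun i _ => (hx1 i (mem_univ _)).1), hx2⟩

/-- The selection lemma inside a good box, for `S_1`. -/
lemma selOne_box [Nonempty X] {ι : Type v} [Finite ι] (s : ι → Set X) (hs : ∀ i, IsOpen (s i))
    (hgood : ∀ i j, i ≠ j → Good (s i) (s j)) (h : SOne (DOmega X) (DOmega X))
    (W : ℕ → Set (Set (ι → X))) (hW : ∀ n, W n ∈ DD (ι → X)) :
    ∃ w : ℕ → Set (ι → X), (∀ n, w n ∈ W n) ∧ univ.pi s ⊆ closure (⋃ n, w n) := by
  classical
  have hWne : ∀ n, (W n).Nonempty := fun n => DD_nonempty (hW n)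
  choose w0 hw0 using hWne
  let U : ℕ → Set (Set X) := fun j => {A | IsOpen A ∧ ∃ w : ℕ → Set (ι → X),
    (∀ n, w n ∈ W (Nat.pair j n)) ∧ univ.pi (fun i => A ∩ s i) ⊆ ⋃ n, w n}
  have hU2 : ∀ j, ∀ F : Set (Set X), F.Finite → (∀ f ∈ F, IsOpen f ∧ f.Nonempty) →
      ∃ A ∈ U j, ∀ f ∈ F, (A ∩ f).Nonempty := by
    intro j F hF hF'
    have : Finite F := hF
    have : Finite (ι → F) := inferInstance
    obtain ⟨e, he⟩ : ∃ e : (ι → F) → ℕ, Function.Injective e := by
      have : Countable (ι → F) := inferInstance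
      exact exists_injective_nat _
    obtain ⟨A, hA1, hA2, T, w, hw1, hw2⟩ := exists_cover s hs hgood (fun c : F => (c : Set X))
      (fun c => hF' c c.2) (fun t => W (Nat.pair j (e t))) (fun t => hW _)
    refine ⟨A, ⟨hA1, fun n => if hn : ∃ t ∈ T, e t = n then w hn.choose else w0 (Nat.pair j n),
      ?_, ?_⟩, fun f hf => hA2 ⟨f, hf⟩⟩
    · intro n
      by_cases hn : ∃ t ∈ T, e t = n
      · simp only [hn, dif_pos]
        have h1 := hw1 _ hn.choose_spec.1
        rwa [hn.choose_spec.2] at h1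
      · simp only [hn, dif_neg, not_false_eq_true]
        exact hw0 _
    · refine hw2.trans ?_
      intro z hz
      obtain ⟨t, ht, hzt⟩ := mem_iUnion₂.1 hz
      refine mem_iUnion.2 ⟨e t, ?_⟩
      have hn : ∃ t' ∈ T, e t' = e t := ⟨t, ht, rfl⟩
      simp only [hn, dif_pos]
      have h2 : hn.choose = t := he hn.choose_spec.2
      rw [h2]
      exact hzt
  by_cases hd : ∃ j, ∃ A ∈ U j, Dense A
  · obtain ⟨j, A, ⟨hA1, w, hw1, hw2⟩, hA3⟩ := hd
    refine ⟨fun l => if (Nat.unpair l).1 = j then w (Nat.unpair l).2 else w0 l, ?_, ?_⟩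
    · intro l
      by_cases hl : (Nat.unpair l).1 = j
      · simp only [hl, if_true]
        have h1 := hw1 (Nat.unpair l).2
        rwa [← hl, Nat.pair_unpair] at h1
      · simp only [hl, if_false]
        exact hw0 l
    · refine dense_box hs ?_
      intro k hk
      have h1 : ∀ i, ∃ x, x ∈ k i ∩ A := fun i =>
        hA3.inter_open_nonempty (k i) (hk i).1 (hk i).2.1
      choose x hx using h1
      refine ⟨x, fun i _ => (hx i).1, ?_⟩
      have h2 := hw2 (show x ∈ univ.pi (fun i => A ∩ s i) from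
        fun i _ => ⟨(hx i).2, (hk i).2.2 (hx i).1⟩)
      obtain ⟨n, hn⟩ := mem_iUnion.1 h2
      refine mem_iUnion.2 ⟨Nat.pair j n, ?_⟩
      simpa using hn
  · push Not at hd
    obtain ⟨V, hV1, hV2⟩ := h U (fun j => DOmega_of (fun A hA => hA.1) (hd j) (hU2 j))
    choose hV3 w hw1 hw2 using hV1
    refine ⟨fun l => w (Nat.unpair l).1 (Nat.unpair l).2, ?_, ?_⟩
    · intro l
      have h1 := hw1 (Nat.unpair l).1 (Nat.unpair l).2
      rwa [Nat.pair_unpair] at h1
    · refine dense_box hs ?_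
      intro k hk
      obtain ⟨A, ⟨j, rfl⟩, hA⟩ := hV2.2.2 (range k) (finite_range k) (by
        rintro _ ⟨i, rfl⟩; exact ⟨(hk i).1, (hk i).2.1⟩)
      have h1 : ∀ i, ∃ x, x ∈ V j ∩ k i := fun i => hA (k i) (mem_range_self i)
      choose x hx using h1
      refine ⟨x, fun i _ => (hx i).2, ?_⟩
      have h2 := hw2 j (show x ∈ univ.pi (fun i => V j ∩ s i) from
        fun i _ => ⟨(hx i).1, (hk i).2.2 (hx i).2⟩)
      obtain ⟨n, hn⟩ := mem_iUnion.1 h2
      refine mem_iUnion.2 ⟨Nat.pair j n, ?_⟩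
      simpa using hn

/-- The selection lemma inside a good box, for `S_fin`. -/
lemma selFin_box {ι : Type v} [Finite ι] (s : ι → Set X) (hs : ∀ i, IsOpen (s i))
    (hgood : ∀ i j, i ≠ j → Good (s i) (s j)) (h : SFin (DOmega X) (DOmega X))
    (W : ℕ → Set (Set (ι → X))) (hW : ∀ n, W n ∈ DD (ι → X)) :
    ∃ w : ℕ → Set (Set (ι → X)), (∀ n, (w n).Finite ∧ w n ⊆ W n) ∧
      univ.pi s ⊆ closure (⋃ n, ⋃₀ (w n)) := by
  classical
  let U : ℕ → Set (Set X) := fun j => {A | IsOpen A ∧ ∃ w : Set (Set (ι → X)),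
    w.Finite ∧ w ⊆ W j ∧ univ.pi (fun i => A ∩ s i) ⊆ ⋃₀ w}
  have hU2 : ∀ j, ∀ F : Set (Set X), F.Finite → (∀ f ∈ F, IsOpen f ∧ f.Nonempty) →
      ∃ A ∈ U j, ∀ f ∈ F, (A ∩ f).Nonempty := by
    intro j F hF hF'
    have : Finite F := hF
    obtain ⟨A, hA1, hA2, T, w, hw1, hw2⟩ := exists_cover s hs hgood (fun c : F => (c : Set X))
      (fun c => hF' c c.2) (fun t => W j) (fun t => hW _)
    refine ⟨A, ⟨hA1, w '' (T : Set (ι → F)), (T.finite_toSet.image w), ?_, ?_⟩,
      fun f hf => hA2 ⟨f, hf⟩⟩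
    · rintro _ ⟨t, ht, rfl⟩
      exact hw1 t ht
    · refine hw2.trans ?_
      intro z hz
      obtain ⟨t, ht, hzt⟩ := mem_iUnion₂.1 hz
      exact ⟨w t, mem_image_of_mem w ht, hzt⟩
  by_cases hd : ∃ j, ∃ A ∈ U j, Dense A
  · obtain ⟨j, A, ⟨hA1, w, hw1, hw2, hw3⟩, hA3⟩ := hd
    refine ⟨fun l => if l = j then w else ∅, ?_, ?_⟩
    · intro l
      by_cases hl : l = j
      · subst hl; simpa using ⟨hw1, hw2⟩
      · simp [hl]
    · refine dense_box hs ?_
      intro k hk
      have h1 : ∀ i, ∃ x, x ∈ k i ∩ A := fun i =>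
        hA3.inter_open_nonempty (k i) (hk i).1 (hk i).2.1
      choose x hx using h1
      refine ⟨x, fun i _ => (hx i).1, ?_⟩
      have h2 := hw3 (show x ∈ univ.pi (fun i => A ∩ s i) from
        fun i _ => ⟨(hx i).2, (hk i).2.2 (hx i).1⟩)
      refine mem_iUnion.2 ⟨j, ?_⟩
      simpa using h2
  · push Not at hd
    obtain ⟨V, hV1, hV2⟩ := h U (fun j => DOmega_of (fun A hA => hA.1) (hd j) (hU2 j))
    have h3 : ∀ j, ∀ A : Set X, ∃ w : Set (Set (ι → X)), A ∈ U j →
        (w.Finite ∧ w ⊆ W j ∧ univ.pi (fun i => A ∩ s i) ⊆ ⋃₀ w) := by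
      intro j A
      by_cases hA : A ∈ U j
      · obtain ⟨_, w, hw⟩ := hA
        exact ⟨w, fun _ => hw⟩
      · exact ⟨∅, fun h => absurd h hA⟩
    choose w hw using h3
    refine ⟨fun j => ⋃ A ∈ V j, w j A, ?_, ?_⟩
    · intro j
      refine ⟨(hV1 j).1.biUnion (fun A hA => (hw j A ((hV1 j).2 hA)).1), ?_⟩
      exact iUnion₂_subset (fun A hA => (hw j A ((hV1 j).2 hA)).2.1)
    · refine dense_box hs ?_
      intro k hk
      obtain ⟨A, hAV, hA⟩ := hV2.2.2 (range k) (finite_range k) (by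
        rintro _ ⟨i, rfl⟩; exact ⟨(hk i).1, (hk i).2.1⟩)
      obtain ⟨j, hj⟩ := mem_iUnion.1 hAV
      have h1 : ∀ i, ∃ x, x ∈ A ∩ k i := fun i => hA (k i) (mem_range_self i)
      choose x hx using h1
      refine ⟨x, fun i _ => (hx i).2, ?_⟩
      have h2 := (hw j A ((hV1 j).2 hj)).2.2 (show x ∈ univ.pi (fun i => A ∩ s i) from
        fun i _ => ⟨(hx i).1, (hk i).2.2 (hx i).2⟩)
      obtain ⟨b, hb1, hb2⟩ := h2
      exact mem_iUnion.2 ⟨j, b, mem_biUnion hj hb1, hb2⟩

/-- From a countable family of good boxes with dense union to `S_1(D,D)` of the power. -/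
lemma SOne_DD_of_boxes [Nonempty X] {ι : Type v} [Finite ι] (B : ℕ → ι → Set X)
    (hB : ∀ m i, IsOpen (B m i)) (hgood : ∀ m i j, i ≠ j → Good (B m i) (B m j))
    (hdense : Dense (⋃ m, univ.pi (B m))) (h : SOne (DOmega X) (DOmega X)) :
    SOne (DD (ι → X)) (DD (ι → X)) := by
  intro W hW
  have h1 := fun m => selOne_box (B m) (hB m) (hgood m) h (fun n => W (Nat.pair m n))
    (fun n => hW _)
  choose w hw1 hw2 using h1
  refine ⟨fun l => w (Nat.unpair l).1 (Nat.unpair l).2, ?_, ?_, ?_⟩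
  · intro l
    have h2 := hw1 (Nat.unpair l).1 (Nat.unpair l).2
    rwa [Nat.pair_unpair] at h2
  · rintro _ ⟨l, rfl⟩
    have h2 := hw1 (Nat.unpair l).1 (Nat.unpair l).2
    exact (hW _).1 _ h2
  · have h3 : (⋃ m, univ.pi (B m)) ⊆
        closure (⋃₀ range (fun l => w (Nat.unpair l).1 (Nat.unpair l).2)) := by
      refine iUnion_subset (fun m => (hw2 m).trans (closure_mono ?_))
      intro x hx
      obtain ⟨n, hn⟩ := mem_iUnion.1 hx
      exact ⟨_, ⟨Nat.pair m n, rfl⟩, by simpa using hn⟩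
    exact (hdense.mono h3).of_closure

/-- From a countable family of good boxes with dense union to `S_fin(D,D)` of the power. -/
lemma SFin_DD_of_boxes {ι : Type v} [Finite ι] (B : ℕ → ι → Set X)
    (hB : ∀ m i, IsOpen (B m i)) (hgood : ∀ m i j, i ≠ j → Good (B m i) (B m j))
    (hdense : Dense (⋃ m, univ.pi (B m))) (h : SFin (DOmega X) (DOmega X)) :
    SFin (DD (ι → X)) (DD (ι → X)) := by
  intro W hW
  have h1 := fun m => selFin_box (B m) (hB m) (hgood m) h (fun n => W (Nat.pair m n))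
    (fun n => hW _)
  choose w hw1 hw2 using h1
  refine ⟨fun l => w (Nat.unpair l).1 (Nat.unpair l).2, ?_, ?_, ?_⟩
  · intro l
    have h2 := hw1 (Nat.unpair l).1 (Nat.unpair l).2
    rwa [Nat.pair_unpair] at h2
  · intro u hu
    obtain ⟨l, hl⟩ := mem_iUnion.1 hu
    have h2 := (hw1 (Nat.unpair l).1 (Nat.unpair l).2).2 hl
    exact (hW _).1 _ h2
  · have h3 : (⋃ m, univ.pi (B m)) ⊆
        closure (⋃₀ ⋃ l, w (Nat.unpair l).1 (Nat.unpair l).2) := by
      refine iUnion_subset (fun m => (hw2 m).trans (closure_mono ?_))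
      intro x hx
      obtain ⟨n, hn⟩ := mem_iUnion.1 hx
      obtain ⟨b, hb1, hb2⟩ := hn
      exact ⟨b, mem_iUnion.2 ⟨Nat.pair m n, by simpa using hb1⟩, hb2⟩
    exact (hdense.mono h3).of_closure

end Pool.Agent.H85.Sel
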