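import Mathlib
import Pool.Agent.H85.SelDefs
import Pool.Agent.H85.SelLemmas

set_option autoImplicit false

namespace Pool.Agent.H85.Sel

open Set

universe u v w

lemma SOne.sfin {X : Type u} {A B : Set (Set (Set X))} (h : SOne A B) : SFin A B := by
  intro U hU
  obtain ⟨V, hV1, hV2⟩ := h U hU
  refine ⟨fun n => {V n}, fun n => ⟨finite_singleton _, by simpa using hV1 n⟩, ?_⟩
  have : (⋃ n, {V n}) = range V := by ext x; simp [eq_comm]
  rwa [this]

variable {X : Type u} [TopologicalSpace X]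

/-- In a ccc space, every family of open sets has a countable subfamily with the same closure of
the union. -/
lemma CCC.exists_countable {Y : Type v} [TopologicalSpace Y] (hY : CCC Y) (G : Set (Set Y))
    (hG : ∀ g ∈ G, IsOpen g) :
    ∃ G' ⊆ G, G'.Countable ∧ ⋃₀ G ⊆ closure (⋃₀ G') := by
  classical
  let S : Set (Set (Set Y)) := {P | (∀ a ∈ P, IsOpen a ∧ a.Nonempty ∧ ∃ g ∈ G, a ⊆ g) ∧
    P.PairwiseDisjoint id}
  obtain ⟨P, hP⟩ := zorn_subset S (by
    intro c hc hchain
    refine ⟨⋃₀ c, ⟨?_, ?_⟩, fun s hs => subset_sUnion_of_mem hs⟩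
    · rintro a ⟨s, hs, ha⟩
      exact (hc hs).1 a ha
    · rintro a ⟨s, hs, ha⟩ b ⟨t, ht, hb⟩ hab
      rcases hchain.total hs ht with hst | hst
      · exact (hc ht).2 (hst ha) hb hab
      · exact (hc hs).2 ha (hst hb) hab)
  have hPS := hP.1
  have hPc : P.Countable := hY P (fun a ha => ⟨(hPS.1 a ha).1, (hPS.1 a ha).2.1⟩) hPS.2
  have hex : ∀ a : Set Y, ∃ g : Set Y, a ∈ P → g ∈ G ∧ a ⊆ g := by
    intro a
    by_cases ha : a ∈ P
    · obtain ⟨g, hg1, hg2⟩ := (hPS.1 a ha).2.2
      exact ⟨g, fun _ => ⟨hg1, hg2⟩⟩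
    · exact ⟨∅, fun h => absurd h ha⟩
  choose g hg using hex
  refine ⟨g '' P, ?_, hPc.image g, ?_⟩
  · rintro _ ⟨a, ha, rfl⟩
    exact (hg a ha).1
  · intro x hx
    by_contra hxc
    obtain ⟨g0, hg0, hxg0⟩ := hx
    let O : Set Y := g0 ∩ (closure (⋃₀ (g '' P)))ᶜ
    have hO : IsOpen O := (hG g0 hg0).inter isClosed_closure.isOpen_compl
    have hOne : O.Nonempty := ⟨x, hxg0, hxc⟩
    have hOd : ∀ a ∈ P, Disjoint O a := by
      intro a ha
      rw [Set.disjoint_left]
      intro y hy hya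
      exact hy.2 (subset_closure ⟨g a, mem_image_of_mem g ha, (hg a ha).2 hya⟩)
    have hins : insert O P ∈ S := by
      refine ⟨?_, ?_⟩
      · intro a ha
        rcases ha with rfl | ha
        · exact ⟨hO, hOne, g0, hg0, inter_subset_left⟩
        · exact hPS.1 a ha
      · refine hPS.2.insert ?_
        intro a ha _
        exact hOd a ha
    have hOP : O ∈ P := hP.2 hins (subset_insert _ _) (mem_insert _ _)
    have := hOd O hOP
    rw [disjoint_self] at this
    exact hOne.ne_empty this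

/-- `S_fin(D_Ω,D_Ω)` implies the countable chain condition. -/
lemma SFin.ccc {Y : Type v} [TopologicalSpace Y] (h : SFin (DOmega Y) (DOmega Y)) : CCC Y := by
  classical
  intro A hA hdisj
  by_contra hunc
  have hinf : A.Infinite := fun hfin => hunc hfin.countable
  let E : Set Y := (closure (⋃₀ A))ᶜ
  have hE : IsOpen E := isClosed_closure.isOpen_compl
  have hEd : ∀ a ∈ A, Disjoint E a := by
    intro a ha
    rw [Set.disjoint_left]
    intro y hy hya
    exact hy (subset_closure ⟨a, ha, hya⟩)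
  let U : Set (Set Y) := {u | ∃ A' : Set (Set Y), A'.Finite ∧ A' ⊆ A ∧ u = E ∪ ⋃₀ A'}
  have hmiss : ∀ A' : Set (Set Y), A' ⊆ A → ∀ a ∈ A, a ∉ A' → Disjoint (E ∪ ⋃₀ A') a := by
    intro A' hA' a ha haA'
    rw [Set.disjoint_left]
    rintro y (hy | ⟨b, hb, hyb⟩) hya
    · exact Set.disjoint_left.1 (hEd a ha) hy hya
    · have hab : b ≠ a := fun hba => haA' (hba ▸ hb)
      exact Set.disjoint_left.1 (hdisj (hA' hb) ha hab) hyb hya
  have hU : U ∈ DOmega Y := by
    refine DOmega_of ?_ ?_ ?_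
    · rintro _ ⟨A', _, hA'2, rfl⟩
      exact hE.union (isOpen_sUnion (fun a ha => (hA a (hA'2 ha)).1))
    · rintro _ ⟨A', hA'1, hA'2, rfl⟩ hd
      obtain ⟨a, ha, haA'⟩ := hinf.exists_notMem_finite hA'1
      obtain ⟨y, hy1, hy2⟩ := hd.inter_open_nonempty a (hA a ha).1 (hA a ha).2
      exact Set.disjoint_left.1 (hmiss A' hA'2 a ha haA') hy2 hy1
    · intro F hF hF'
      have hex : ∀ f : Set Y, ∃ A' : Set (Set Y), A'.Finite ∧ A' ⊆ A ∧
          (f ∈ F → ((E ∪ ⋃₀ A') ∩ f).Nonempty) := by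
        intro f
        by_cases hf : f ∈ F
        · by_cases hfE : (E ∩ f).Nonempty
          · exact ⟨∅, finite_empty, empty_subset _, fun _ => by simpa using hfE⟩
          · obtain ⟨x, hx⟩ := (hF' f hf).2
            have hxc : x ∈ closure (⋃₀ A) := by
              by_contra hxc
              exact hfE ⟨x, hxc, hx⟩
            obtain ⟨y, hyf, a, ha, hya⟩ := mem_closure_iff.1 hxc f (hF' f hf).1 hx
            exact ⟨{a}, finite_singleton _, by simpa using ha,
              fun _ => ⟨y, Or.inr (by simpa using hya), hyf⟩⟩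
        · exact ⟨∅, finite_empty, empty_subset _, fun h => absurd h hf⟩
      choose A' h1 h2 h3 using hex
      refine ⟨E ∪ ⋃₀ (⋃ f ∈ F, A' f), ⟨_, hF.biUnion (fun f _ => h1 f),
        iUnion₂_subset (fun f _ => h2 f), rfl⟩, ?_⟩
      intro f hf
      obtain ⟨y, hy1, hy2⟩ := h3 f hf
      refine ⟨y, ?_, hy2⟩
      rcases hy1 with hy1 | ⟨a, ha, hya⟩
      · exact Or.inl hy1
      · exact Or.inr ⟨a, mem_biUnion hf ha, hya⟩
  obtain ⟨F, hF1, hF2⟩ := h (fun _ => U) (fun _ => hU)
  have hex : ∀ u : Set Y, ∃ A' : Set (Set Y), A'.Finite ∧ A' ⊆ A ∧ (u ∈ U → u = E ∪ ⋃₀ A') := by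
    intro u
    by_cases hu : u ∈ U
    · obtain ⟨A', h1, h2, h3⟩ := hu
      exact ⟨A', h1, h2, fun _ => h3⟩
    · exact ⟨∅, finite_empty, empty_subset _, fun h => absurd h hu⟩
  choose A' h1 h2 h3 using hex
  have hcount : (⋃ n, ⋃ u ∈ F n, A' u).Countable := by
    refine countable_iUnion (fun n => ?_)
    exact ((hF1 n).1.countable).biUnion (fun u _ => (h1 u).countable)
  obtain ⟨a, ha, haA'⟩ : ∃ a ∈ A, a ∉ ⋃ n, ⋃ u ∈ F n, A' u := by
    by_contra hcon
    push Not at hcon
    exact hunc (hcount.mono hcon)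
  obtain ⟨u, hu, hu'⟩ := hF2.2.2 {a} (finite_singleton _) (by simpa using hA a ha)
  obtain ⟨y, hy1, hy2⟩ := hu' a (mem_singleton _)
  obtain ⟨n, hn⟩ := mem_iUnion.1 hu
  have huU : u ∈ U := (hF1 n).2 hn
  rw [h3 u huU] at hy1
  refine Set.disjoint_left.1 (hmiss (A' u) (h2 u) a ha ?_) hy1 hy2
  intro hau
  exact haA' (mem_iUnion.2 ⟨n, mem_biUnion hn hau⟩)

/-- `S_fin(D,D)` implies the countable chain condition. -/
lemma SFin.ccc' {Y : Type v} [TopologicalSpace Y] (h : SFin (DD Y) (DD Y)) : CCC Y := by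
  classical
  intro A hA hdisj
  let E : Set Y := (closure (⋃₀ A))ᶜ
  have hE : IsOpen E := isClosed_closure.isOpen_compl
  have hU : insert E A ∈ DD Y := by
    refine ⟨?_, ?_⟩
    · rintro u (rfl | hu)
      · exact hE
      · exact (hA u hu).1
    · intro x
      by_cases hx : x ∈ closure (⋃₀ A)
      · exact closure_mono (sUnion_subset_sUnion (subset_insert _ _)) hx
      · exact subset_closure ⟨E, mem_insert _ _, hx⟩
  obtain ⟨F, hF1, hF2⟩ := h (fun _ => insert E A) (fun _ => hU)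
  refine Countable.mono ?_ (countable_iUnion (fun n => (hF1 n).1.countable))
  intro a ha
  obtain ⟨y, hya, u, hu, hyu⟩ := hF2.2.inter_open_nonempty a (hA a ha).1 (hA a ha).2
  obtain ⟨n, hn⟩ := mem_iUnion.1 hu
  have hua : u = a := by
    rcases (hF1 n).2 hn with rfl | huA
    · exact absurd (subset_closure (show y ∈ ⋃₀ A from ⟨a, ha, hya⟩)) hyu
    · by_contra hne
      exact Set.disjoint_left.1 (hdisj huA ha hne) hyu hya
  exact hua ▸ hu

/-- If the square of `X` is ccc, then every finite power of `X` has a countable family of good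
boxes with dense union. -/
lemma exists_boxes (h : CCC (Fin 2 → X)) (ι : Type v) [Finite ι] :
    ∃ B : ℕ → ι → Set X, (∀ m i, IsOpen (B m i)) ∧
      (∀ m i j, i ≠ j → Good (B m i) (B m j)) ∧ Dense (⋃ m, univ.pi (B m)) := by
  classical
  have := Fintype.ofFinite ι
  -- a countable dense family of good boxes in the square
  let G : Set (Set (Fin 2 → X)) := {g | ∃ s : Fin 2 → Set X, (∀ i, IsOpen (s i)) ∧
    Good (s 0) (s 1) ∧ g = univ.pi s}
  obtain ⟨G', hG', hG'c, hG'd⟩ := h.exists_countable G (by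
    rintro _ ⟨s, hs, _, rfl⟩
    exact isOpen_set_pi finite_univ (fun i _ => hs i))
  have hGdense : ∀ O : Set (Fin 2 → X), IsOpen O → O.Nonempty → (O ∩ ⋃₀ G').Nonempty := by
    intro O hO hne
    obtain ⟨y, hy⟩ := hne
    obtain ⟨k, hk, hkO⟩ := isOpen_pi_iff'.1 hO y hy
    obtain ⟨s, hs1, hs2⟩ := exists_good_family k (fun i => ⟨(hk i).1, ⟨y i, (hk i).2⟩⟩)
    have hsne : (univ.pi s).Nonempty := univ_pi_nonempty_iff.2 (fun i => (hs1 i).2.1)
    obtain ⟨z, hz⟩ := hsne
    have hzG : z ∈ ⋃₀ G := ⟨univ.pi s, ⟨s, fun i => (hs1 i).1, hs2 0 1 (by decide), rfl⟩, hz⟩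
    have hopen : IsOpen (univ.pi s) := isOpen_set_pi finite_univ (fun i _ => (hs1 i).1)
    obtain ⟨z', hz'1, hz'2⟩ := mem_closure_iff.1 (hG'd hzG) _ hopen hz
    exact ⟨z', hkO ((pi_mono (fun i _ => (hs1 i).2.2)) hz'1), hz'2⟩
  have hex : ∀ g : G', ∃ s : Fin 2 → Set X, (∀ i, IsOpen (s i)) ∧
    Good (s 0) (s 1) ∧ (g : Set (Fin 2 → X)) = univ.pi s := fun g => hG' g.2
  choose s hs1 hs2 hs3 using hex
  have hcG' : Countable G' := hG'c
  -- ordered pairs of distinct indices
  let Q := {p : ι × ι // p.1 ≠ p.2}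
  -- for each choice function a box
  let B0 : (Q → G') → ι → Set X := fun m i =>
    (⋂ p : Q, {x | p.1.1 = i → x ∈ s (m p) 0}) ∩ (⋂ p : Q, {x | p.1.2 = i → x ∈ s (m p) 1})
  have hB0 : ∀ m i, IsOpen (B0 m i) := by
    intro m i
    refine (isOpen_iInter_of_finite (fun p => ?_)).inter (isOpen_iInter_of_finite (fun p => ?_))
    · by_cases hp : p.1.1 = i
      · simpa [hp] using hs1 (m p) 0
      · simp [hp]
    · by_cases hp : p.1.2 = i
      · simpa [hp] using hs1 (m p) 1
      · simp [hp]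
  have hB0g : ∀ m i j, i ≠ j → Good (B0 m i) (B0 m j) := by
    intro m i j hij
    refine (hs2 (m ⟨(i, j), hij⟩)).mono (hB0 m i) (hB0 m j) ?_ ?_
    · intro x hx
      exact mem_iInter.1 hx.1 (⟨(i, j), hij⟩ : Q) rfl
    · intro x hx
      exact mem_iInter.1 hx.2 (⟨(i, j), hij⟩ : Q) rfl
  have hB0d : Dense (⋃ m, univ.pi (B0 m)) := by
    have hpair : ∀ p : Q, IsOpen {x : ι → X | ∃ g : G', x p.1.1 ∈ s g 0 ∧ x p.1.2 ∈ s g 1} ∧
        Dense {x : ι → X | ∃ g : G', x p.1.1 ∈ s g 0 ∧ x p.1.2 ∈ s g 1} := by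
      intro p
      constructor
      · have : {x : ι → X | ∃ g : G', x p.1.1 ∈ s g 0 ∧ x p.1.2 ∈ s g 1} =
            ⋃ g : G', ((fun x : ι → X => x p.1.1) ⁻¹' (s g 0)) ∩
              ((fun x : ι → X => x p.1.2) ⁻¹' (s g 1)) := by
          ext x; simp
        rw [this]
        refine isOpen_iUnion (fun g => ?_)
        exact ((hs1 g 0).preimage (continuous_apply _)).inter
          ((hs1 g 1).preimage (continuous_apply _))
      · rw [dense_iff_inter_open]
        intro O hO hne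
        obtain ⟨y, hy⟩ := hne
        obtain ⟨k, hk, hkO⟩ := isOpen_pi_iff'.1 hO y hy
        obtain ⟨z, hz1, hz2⟩ := hGdense (univ.pi ![k p.1.1, k p.1.2])
          (isOpen_set_pi finite_univ (by
            intro i _
            fin_cases i
            · exact (hk _).1
            · exact (hk _).1))
          ⟨![y p.1.1, y p.1.2], by
            intro i _
            fin_cases i
            · exact (hk _).2
            · exact (hk _).2⟩
        obtain ⟨g, hg, hzg⟩ := hz2
        have hz0 : z 0 ∈ k p.1.1 := by simpa using hz1 0 (mem_univ _)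
        have hz1' : z 1 ∈ k p.1.2 := by simpa using hz1 1 (mem_univ _)
        have hzs : z ∈ univ.pi (s ⟨g, hg⟩) := by rw [← hs3 ⟨g, hg⟩]; exact hzg
        let x : ι → X := Function.update (Function.update y p.1.1 (z 0)) p.1.2 (z 1)
        have hx1 : x p.1.1 = z 0 := by
          simp only [x]
          rw [Function.update_of_ne p.2, Function.update_self]
        have hx2 : x p.1.2 = z 1 := by simp [x]
        refine ⟨x, hkO ?_, ⟨⟨g, hg⟩, ?_, ?_⟩⟩
        · intro i _
          by_cases hi2 : i = p.1.2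
          · subst hi2; rw [hx2]; exact hz1'
          · by_cases hi1 : i = p.1.1
            · subst hi1; rw [hx1]; exact hz0
            · have : x i = y i := by
                simp only [x]
                rw [Function.update_of_ne hi2, Function.update_of_ne hi1]
              rw [this]; exact (hk i).2
        · rw [hx1]; exact hzs 0 (mem_univ _)
        · rw [hx2]; exact hzs 1 (mem_univ _)
    have hinter : Dense (⋂ p : Q, {x : ι → X | ∃ g : G', x p.1.1 ∈ s g 0 ∧ x p.1.2 ∈ s g 1}) := by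
      have key : ∀ T : Finset Q,
          Dense (⋂ p ∈ T, {x : ι → X | ∃ g : G', x p.1.1 ∈ s g 0 ∧ x p.1.2 ∈ s g 1}) ∧
          IsOpen (⋂ p ∈ T, {x : ι → X | ∃ g : G', x p.1.1 ∈ s g 0 ∧ x p.1.2 ∈ s g 1}) := by
        intro T
        induction T using Finset.induction_on with
        | empty => simp
        | insert q T _ ih =>
          simp only [Finset.mem_insert, iInter_iInter_eq_or_left]
          exact ⟨(hpair q).2.inter_of_isOpen_left ih.1 (hpair q).1, (hpair q).1.inter ih.2⟩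
      simpa using (key Finset.univ).1
    refine hinter.mono ?_
    intro x hx
    have hx' : ∀ p : Q, ∃ g : G', x p.1.1 ∈ s g 0 ∧ x p.1.2 ∈ s g 1 :=
      fun p => mem_iInter.1 hx p
    choose m hm1 hm2 using hx'
    refine mem_iUnion.2 ⟨m, fun i _ => ⟨mem_iInter.2 ?_, mem_iInter.2 ?_⟩⟩
    · intro p hp
      subst hp; exact hm1 p
    · intro p hp
      subst hp; exact hm2 p
  -- countably many choice functions
  have hcQ : Countable (Q → G') := inferInstance
  by_cases hne : Nonempty (Q → G')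
  · obtain ⟨e, he⟩ := exists_surjective_nat (Q → G')
    refine ⟨fun n => B0 (e n), fun n => hB0 _, fun n => hB0g _, ?_⟩
    refine hB0d.mono ?_
    intro x hx
    obtain ⟨m, hm⟩ := mem_iUnion.1 hx
    obtain ⟨n, rfl⟩ := he m
    exact mem_iUnion.2 ⟨n, hm⟩
  · refine ⟨fun _ _ => ∅, fun _ _ => isOpen_empty, fun _ _ _ _ => Or.inl (by simp), ?_⟩
    have : (⋃ m, univ.pi (B0 m)) = ∅ := by
      rw [eq_empty_iff_forall_notMem]
      intro x hx
      obtain ⟨m, _⟩ := mem_iUnion.1 hx
      exact hne ⟨m⟩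
    rw [this] at hB0d
    exact hB0d.mono (empty_subset _)

/-- The `r`-th power of a subset of `ι → X`, as a subset of `Fin r × ι → X`. -/
def pw {ι : Type v} (r : ℕ) (u : Set (ι → X)) : Set (Fin r × ι → X) :=
  {z | ∀ a, (fun i => z (a, i)) ∈ u}

lemma isOpen_pw {ι : Type v} {r : ℕ} {u : Set (ι → X)} (hu : IsOpen u) : IsOpen (pw r u) := by
  have : pw r u = ⋂ a, (fun z : Fin r × ι → X => fun i => z (a, i)) ⁻¹' u := by
    ext z; simp [pw]
  rw [this]
  refine isOpen_iInter_of_finite (fun a => hu.preimage ?_)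
  exact continuous_pi (fun i => continuous_apply (a, i))

lemma pw_family_mem_DD {ι : Type v} [Finite ι] (r : ℕ) {U : Set (Set (ι → X))}
    (hU : U ∈ DOmega (ι → X)) : (pw r) '' U ∈ DD (Fin r × ι → X) := by
  refine ⟨?_, ?_⟩
  · rintro _ ⟨u, hu, rfl⟩
    exact isOpen_pw (hU.1.1 u hu)
  · rw [dense_iff_inter_open]
    intro O hO hne
    obtain ⟨z, hz⟩ := hne
    obtain ⟨k, hk, hkO⟩ := isOpen_pi_iff'.1 hO z hz
    obtain ⟨u, hu, hu'⟩ := hU.2.2 (range (fun a : Fin r => univ.pi (fun i => k (a, i))))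
      (finite_range _) (by
        rintro _ ⟨a, rfl⟩
        exact ⟨isOpen_set_pi finite_univ (fun i _ => (hk _).1),
          ⟨fun i => z (a, i), fun i _ => (hk _).2⟩⟩)
    have h1 : ∀ a : Fin r, ∃ x, x ∈ u ∩ univ.pi (fun i => k (a, i)) :=
      fun a => hu' _ (mem_range_self a)
    choose x hx using h1
    refine ⟨fun p => x p.1 p.2, hkO ?_, pw r u, mem_image_of_mem _ hu, ?_⟩
    · rintro ⟨a, i⟩ _
      exact (hx a).2 i (mem_univ _)
    · intro a
      exact (hx a).1

/-- If all finite powers satisfy `S_1(D,D)` then all finite powers satisfy `S_1(D_Ω,D_Ω)`. -/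
lemma SOne_DOmega_of_powers {ι : Type v} [Finite ι]
    (h : ∀ r : ℕ, SOne (DD (Fin r × ι → X)) (DD (Fin r × ι → X))) :
    SOne (DOmega (ι → X)) (DOmega (ι → X)) := by
  classical
  intro U hU
  have h1 := fun r => h r (fun n => pw r '' U (Nat.pair r n)) (fun n => pw_family_mem_DD r (hU _))
  choose V hV1 hV2 using h1
  choose v hv1 hv2 using hV1
  refine ⟨fun l => v (Nat.unpair l).1 (Nat.unpair l).2, ?_, ?_⟩
  · intro l
    have h2 := hv1 (Nat.unpair l).1 (Nat.unpair l).2
    rwa [Nat.pair_unpair] at h2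
  · refine DOmega_of ?_ ?_ ?_
    · rintro _ ⟨l, rfl⟩
      exact (hU _).1.1 _ (hv1 _ _)
    · rintro _ ⟨l, rfl⟩
      exact not_dense_of_mem_DOmega (hU _) (hv1 _ _)
    · intro F hF hF'
      have hfin : Finite F := hF
      obtain ⟨r, ⟨e⟩⟩ := Finite.exists_equiv_fin F
      let O : Set (Fin r × ι → X) := {z | ∀ a : Fin r, (fun i => z (a, i)) ∈ (e.symm a : Set (ι → X))}
      have hO : IsOpen O := by
        have : O = ⋂ a : Fin r, (fun z : Fin r × ι → X => fun i => z (a, i)) ⁻¹'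
            (e.symm a : Set (ι → X)) := by
          ext z; simp [O]
        rw [this]
        refine isOpen_iInter_of_finite (fun a => (hF' _ (e.symm a).2).1.preimage ?_)
        exact continuous_pi (fun i => continuous_apply (a, i))
      have hOne : O.Nonempty := by
        have h2 : ∀ a : Fin r, ∃ x, x ∈ (e.symm a : Set (ι → X)) :=
          fun a => (hF' _ (e.symm a).2).2
        choose x hx using h2
        exact ⟨fun p => x p.1 p.2, fun a => hx a⟩
      obtain ⟨z, hz, _, ⟨n, rfl⟩, hzn⟩ := (hV2 r).2.inter_open_nonempty O hO hOne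
      refine ⟨v r n, ⟨Nat.pair r n, by simp⟩, ?_⟩
      intro f hf
      rw [← hv2 r n] at hzn
      refine ⟨fun i => z (e ⟨f, hf⟩, i), hzn _, ?_⟩
      have := hz (e ⟨f, hf⟩)
      simpa using this

/-- If all finite powers satisfy `S_fin(D,D)` then all finite powers satisfy
`S_fin(D_Ω,D_Ω)`. -/
lemma SFin_DOmega_of_powers {ι : Type v} [Finite ι]
    (h : ∀ r : ℕ, SFin (DD (Fin r × ι → X)) (DD (Fin r × ι → X))) :
    SFin (DOmega (ι → X)) (DOmega (ι → X)) := by
  classical
  intro U hU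
  have h1 := fun r => h r (fun n => pw r '' U (Nat.pair r n)) (fun n => pw_family_mem_DD r (hU _))
  choose V hV1 hV2 using h1
  have h2 : ∀ r n, ∃ v : Set (Set (ι → X)), v ⊆ U (Nat.pair r n) ∧ v.Finite ∧ pw r '' v = V r n := by
    intro r n
    obtain ⟨v, hv1, hv2, hv3⟩ := (Set.exists_subset_image_finite_and
      (f := pw r) (s := U (Nat.pair r n)) (p := fun t => t = V r n)).1
      ⟨V r n, (hV1 r n).2, (hV1 r n).1, rfl⟩
    exact ⟨v, hv1, hv2, hv3⟩
  choose v hv1 hv2 hv3 using h2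
  refine ⟨fun l => v (Nat.unpair l).1 (Nat.unpair l).2, ?_, ?_⟩
  · intro l
    refine ⟨hv2 _ _, ?_⟩
    have h3 := hv1 (Nat.unpair l).1 (Nat.unpair l).2
    rwa [Nat.pair_unpair] at h3
  · refine DOmega_of ?_ ?_ ?_
    · intro u hu
      obtain ⟨l, hl⟩ := mem_iUnion.1 hu
      exact (hU _).1.1 _ (hv1 _ _ hl)
    · intro u hu
      obtain ⟨l, hl⟩ := mem_iUnion.1 hu
      exact not_dense_of_mem_DOmega (hU _) (hv1 _ _ hl)
    · intro F hF hF'
      have hfin : Finite F := hF
      obtain ⟨r, ⟨e⟩⟩ := Finite.exists_equiv_fin F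
      let O : Set (Fin r × ι → X) := {z | ∀ a : Fin r, (fun i => z (a, i)) ∈ (e.symm a : Set (ι → X))}
      have hO : IsOpen O := by
        have : O = ⋂ a : Fin r, (fun z : Fin r × ι → X => fun i => z (a, i)) ⁻¹'
            (e.symm a : Set (ι → X)) := by
          ext z; simp [O]
        rw [this]
        refine isOpen_iInter_of_finite (fun a => (hF' _ (e.symm a).2).1.preimage ?_)
        exact continuous_pi (fun i => continuous_apply (a, i))
      have hOne : O.Nonempty := by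
        have h2 : ∀ a : Fin r, ∃ x, x ∈ (e.symm a : Set (ι → X)) :=
          fun a => (hF' _ (e.symm a).2).2
        choose x hx using h2
        exact ⟨fun p => x p.1 p.2, fun a => hx a⟩
      obtain ⟨z, hz, b, hb, hzb⟩ := (hV2 r).2.inter_open_nonempty O hO hOne
      obtain ⟨n, hn⟩ := mem_iUnion.1 hb
      rw [← hv3 r n] at hn
      obtain ⟨u, hu, rfl⟩ := hn
      refine ⟨u, mem_iUnion.2 ⟨Nat.pair r n, by simpa using hu⟩, ?_⟩
      intro f hf
      refine ⟨fun i => z (e ⟨f, hf⟩, i), hzb _, ?_⟩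
      have := hz (e ⟨f, hf⟩)
      simpa using this

theorem SOne_DD_all [Nonempty X] (h : SOne (DOmega X) (DOmega X)) (hc : CCC (Fin 2 → X))
    (ι : Type v) [Finite ι] : SOne (DD (ι → X)) (DD (ι → X)) := by
  obtain ⟨B, h1, h2, h3⟩ := exists_boxes hc ι
  exact SOne_DD_of_boxes B h1 h2 h3 h

theorem SFin_DD_all (h : SFin (DOmega X) (DOmega X)) (hc : CCC (Fin 2 → X))
    (ι : Type v) [Finite ι] : SFin (DD (ι → X)) (DD (ι → X)) := by
  obtain ⟨B, h1, h2, h3⟩ := exists_boxes hc ι
  exact SFin_DD_of_boxes B h1 h2 h3 h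

end Pool.Agent.H85.Sel
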