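import Mathlib
import Pool.Agent.H85.SelDefs
import Pool.Agent.H85.SelLemmas
import Pool.Agent.H85.SelMain
import Pool.Agent.H85.SelIndepDefs

set_option autoImplicit false

namespace Pool.Agent.H85.Sel

open Set

/-- Under `MA_{ℵ₁}` the square of a ccc space is ccc. -/
theorem ccc_square_of_MA (hMA : MartinAxiomAlephOne) (X : Type) [TopologicalSpace X]
    (hX : CCC X) : CCC (Fin 2 → X) := by
  classical
  intro A hA hdisj
  by_contra hunc
  -- an injection of `ω₁` into `A`
  let W : Type := (Cardinal.aleph 1).ord.ToType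
  have hWcard : Cardinal.mk W = Cardinal.aleph 1 := by
    simp [W]
  have hcard : Cardinal.aleph 1 ≤ Cardinal.mk A := by
    have h1 : Cardinal.aleph0 < Cardinal.mk A := by
      rw [← not_le]
      intro h
      exact hunc (Cardinal.le_aleph0_iff_set_countable.1 h)
    have h2 := Order.succ_le_of_lt h1
    rwa [Cardinal.succ_aleph0] at h2
  obtain ⟨f⟩ : Nonempty (W ↪ A) := by
    rw [← Cardinal.le_def, hWcard]; exact hcard
  have hinit : ∀ w : W, {v : W | v ≤ w}.Countable := by
    intro w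
    have h1 : {v : W | v ≤ w} = Iic w := rfl
    rw [h1, ← Cardinal.le_aleph0_iff_set_countable]
    have h2 : Cardinal.mk (Iio w) < Cardinal.mk W := Cardinal.mk_Iio_lt w (by simp [W])
    have h3 : Cardinal.mk (Iio w) ≤ Cardinal.aleph0 := by
      have h5 : Cardinal.mk (Iio w) < Order.succ Cardinal.aleph0 := by
        rw [Cardinal.succ_aleph0]; exact h2.trans_eq hWcard
      exact Order.lt_succ_iff.1 h5
    have h4 : Iic w = insert w (Iio w) := by
      ext x; simp [le_iff_eq_or_lt]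
    rw [h4]
    exact (Cardinal.le_aleph0_iff_set_countable.2 ((Cardinal.le_aleph0_iff_set_countable.1 h3).insert w))
  -- choose boxes
  have hbox : ∀ w : W, ∃ s : Fin 2 → Set X, (∀ i, IsOpen (s i) ∧ (s i).Nonempty) ∧
      univ.pi s ⊆ (f w : Set (Fin 2 → X)) := by
    intro w
    obtain ⟨y, hy⟩ := (hA _ (f w).2).2
    obtain ⟨s, hs, hs'⟩ := isOpen_pi_iff'.1 (hA _ (f w).2).1 y hy
    exact ⟨s, fun i => ⟨(hs i).1, ⟨y i, (hs i).2⟩⟩, hs'⟩
  choose s hs1 hs2 using hbox
  -- the poset of nonempty open sets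
  let P0 : Type := {a : Set X // IsOpen a ∧ a.Nonempty}
  -- some open set is such that all its open subsets meet uncountably many `s w 0`
  obtain ⟨p, hp, hpne, hp'⟩ : ∃ p : Set X, IsOpen p ∧ p.Nonempty ∧ ∀ q : Set X, IsOpen q →
      q.Nonempty → q ⊆ p → ¬ {w : W | (q ∩ s w 0).Nonempty}.Countable := by
    by_contra hcon
    push Not at hcon
    let G : Set (Set X) := {q | IsOpen q ∧ {w : W | (q ∩ s w 0).Nonempty}.Countable}
    obtain ⟨G', hG', hG'c, hG'd⟩ := hX.exists_countable G (fun g hg => hg.1)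
    have hcov : (univ : Set W) ⊆ ⋃ q ∈ G', {w : W | (q ∩ s w 0).Nonempty} := by
      intro w _
      obtain ⟨q, hq1, hq2, hq3, hq4⟩ := hcon (s w 0) (hs1 w 0).1 (hs1 w 0).2
      obtain ⟨x, hx⟩ := hq2
      have hxG : x ∈ ⋃₀ G := ⟨q, ⟨hq1, hq4⟩, hx⟩
      obtain ⟨y, hy1, g, hg, hy2⟩ := mem_closure_iff.1 (hG'd hxG) q hq1 hx
      exact mem_biUnion hg ⟨y, hy2, hq3 hy1⟩
    have hWc : (univ : Set W).Countable :=
      (hG'c.biUnion (fun q hq => (hG' hq).2)).mono hcov
    have h1 : Cardinal.mk W ≤ Cardinal.aleph0 := by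
      have := Cardinal.le_aleph0_iff_set_countable.2 hWc
      rwa [Cardinal.mk_univ] at this
    rw [hWcard, ← Cardinal.succ_aleph0] at h1
    exact absurd h1 (not_le.2 (Order.lt_succ _))
  let P : Type := {a : Set X // IsOpen a ∧ a.Nonempty ∧ a ⊆ p}
  have hPne : Nonempty P := ⟨⟨p, hp, hpne, Subset.rfl⟩⟩
  have hPccc : PosetCCC P := by
    intro B hB
    have h1 : (Subtype.val '' B : Set (Set X)).Countable := by
      refine hX _ ?_ ?_
      · rintro _ ⟨a, _, rfl⟩
        exact ⟨a.2.1, a.2.2.1⟩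
      · rintro _ ⟨a, ha, rfl⟩ _ ⟨b, hb, rfl⟩ hab
        have hab' : a ≠ b := fun h => hab (by rw [h])
        have h2 := hB ha hb hab'
        rw [Function.onFun, id, id, disjoint_iff_inter_eq_empty, ← not_nonempty_iff_eq_empty]
        intro hne
        exact h2 ⟨⟨a.1 ∩ b.1, a.2.1.inter b.2.1, hne, inter_subset_left.trans a.2.2.2⟩,
          inter_subset_left, inter_subset_right⟩
    exact Set.countable_of_injective_of_countable_image Subtype.val_injective.injOn h1
  let D : W → Set P := fun v => {q | ∃ w : W, v < w ∧ (q : Set X) ⊆ s w 0}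
  obtain ⟨G, hGne, hGup, hGdir, hGD⟩ := hMA P hPccc W hWcard.le D (by
    intro v q
    have h1 := hp' q.1 q.2.1 q.2.2.1 q.2.2.2
    have h2 : ∃ w : W, (q.1 ∩ s w 0).Nonempty ∧ v < w := by
      by_contra hcon
      push Not at hcon
      exact h1 ((hinit v).mono (fun w hw => hcon w hw))
    obtain ⟨w, hw1, hw2⟩ := h2
    exact ⟨⟨q.1 ∩ s w 0, q.2.1.inter (hs1 w 0).1, hw1, inter_subset_left.trans q.2.2.2⟩,
      ⟨w, hw2, inter_subset_right⟩, inter_subset_left⟩)
  let I : Set W := {w | ∃ q ∈ G, (q : Set X) ⊆ s w 0}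
  have hIunc : ¬ I.Countable := by
    intro hI
    have hcov : (univ : Set W) ⊆ ⋃ w ∈ I, {v : W | v ≤ w} := by
      intro v _
      obtain ⟨q, hqG, w, hvw, hq⟩ := hGD v
      exact mem_biUnion (show w ∈ I from ⟨q, hqG, hq⟩) hvw.le
    have hWc : (univ : Set W).Countable := (hI.biUnion (fun w _ => hinit w)).mono hcov
    have h1 : Cardinal.mk W ≤ Cardinal.aleph0 := by
      have := Cardinal.le_aleph0_iff_set_countable.2 hWc
      rwa [Cardinal.mk_univ] at this
    rw [hWcard, ← Cardinal.succ_aleph0] at h1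
    exact absurd h1 (not_le.2 (Order.lt_succ _))
  have hkey : ∀ w ∈ I, ∀ w' ∈ I, w ≠ w' → Disjoint (s w 1) (s w' 1) := by
    intro w hw w' hw' hne
    rw [disjoint_iff_inter_eq_empty, ← not_nonempty_iff_eq_empty]
    rintro ⟨y, hy1, hy2⟩
    obtain ⟨q, hqG, hq⟩ := hw
    obtain ⟨q', hqG', hq'⟩ := hw'
    obtain ⟨r, _, hr1, hr2⟩ := hGdir q hqG q' hqG'
    obtain ⟨x, hx⟩ := r.2.2.1
    have hx1 : x ∈ s w 0 := hq (hr1 hx)
    have hx2 : x ∈ s w' 0 := hq' (hr2 hx)
    have hne' : (f w : Set (Fin 2 → X)) ≠ (f w' : Set (Fin 2 → X)) := by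
      intro h
      exact hne (f.injective (Subtype.ext h))
    have hd := hdisj (f w).2 (f w').2 hne'
    refine Set.disjoint_left.1 hd (show (![x, y] : Fin 2 → X) ∈ _ from hs2 w ?_) (hs2 w' ?_)
    · intro i _
      fin_cases i
      · exact hx1
      · exact hy1
    · intro i _
      fin_cases i
      · exact hx2
      · exact hy2
  have hinj : Set.InjOn (fun w => s w 1) I := by
    intro w hw w' hw' heq
    by_contra hne
    have hd := hkey w hw w' hw' hne
    simp only at heq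
    rw [heq, disjoint_self] at hd
    exact (hs1 w' 1).2.ne_empty hd
  have himg : ((fun w => s w 1) '' I).Countable := by
    refine hX _ ?_ ?_
    · rintro _ ⟨w, _, rfl⟩
      exact hs1 w 1
    · rintro _ ⟨w, hw, rfl⟩ _ ⟨w', hw', rfl⟩ hne
      exact hkey w hw w' hw' (fun h => hne (by rw [h]))
  exact hIunc (Set.countable_of_injective_of_countable_image hinj himg)

end Pool.Agent.H85.Sel
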