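import Mathlib
import Pool.Agent.H85.SelDefs
import Pool.Agent.H85.SelLemmas
import Pool.Agent.H85.SelMain
import Pool.Agent.H85.SelIndepDefs

set_option autoImplicit false

namespace Pool.Agent.H85.Sel

open Set

namespace IsFreeSuslinTree

variable {T : Type} [PartialOrder T] {ht : T → Ordinal.{0}} (hT : IsFreeSuslinTree T ht)

include hT

lemma le_of_le {s t c : T} (hs : s ≤ c) (ht' : t ≤ c) (h : ht s ≤ ht t) : s ≤ t := by
  obtain ⟨s', ⟨h1, h2⟩, _⟩ := hT.exists_unique_pred t (ht s) h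
  have h3 := (hT.exists_unique_pred c (ht s) (hT.ht_strictMono.monotone hs)).unique
    ⟨h1.trans ht', h2⟩ ⟨hs, rfl⟩
  exact h3 ▸ h1

/-- the initial part of the tree up to a countable level is countable -/
lemma countable_le (α : Ordinal.{0}) (hα : α < Ordinal.omega 1) : {t : T | ht t ≤ α}.Countable := by
  have h1 : {t : T | ht t ≤ α} = ⋃ β ∈ Iic α, {t : T | ht t = β} := by
    ext t; simp
  rw [h1]
  refine Countable.biUnion ?_ (fun β _ => hT.level_countable β)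
  have h2 : Cardinal.mk (Iic α) ≤ Cardinal.aleph0 := by
    have h3 : Iic α = Iio (Order.succ α) := by ext x; simp
    rw [h3, Cardinal.mk_Iio_ordinal]
    have h4 : (Order.succ α).card < Cardinal.aleph 1 := by
      have h5 : Order.succ α < Ordinal.omega 1 :=
        (Cardinal.isSuccLimit_omega 1).succ_lt hα
      have h6 : (Cardinal.aleph 1).ord = Ordinal.omega 1 := Cardinal.ord_aleph 1
      rw [← h6] at h5
      exact Cardinal.lt_ord.1 h5
    rw [← Cardinal.succ_aleph0] at h4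
    have h7 := Order.lt_succ_iff.1 h4
    exact Cardinal.lift_le_aleph0.2 h7
  exact Cardinal.le_aleph0_iff_set_countable.1 h2

/-- the abstract hypothesis relating a space to the tree -/
structure _root_.Pool.Agent.H85.Sel.TreeBase {T : Type} [PartialOrder T] {Y : Type}
    [TopologicalSpace Y] (N : T → Set Y) : Prop where
  isOpen : ∀ t, IsOpen (N t)
  nonempty : ∀ t, (N t).Nonempty
  base : ∀ O : Set Y, IsOpen O → O.Nonempty → ∃ t, N t ⊆ O
  anti : ∀ s t : T, s ≤ t → N t ⊆ N s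
  compat : ∀ s t : T, (N s ∩ N t).Nonempty → ∃ c, s ≤ c ∧ t ≤ c

variable {Y : Type} [TopologicalSpace Y] {N : T → Set Y}

lemma meet_ext (hN : TreeBase N) {U : Set (Set Y)} (hU : U ∈ DOmega Y) {C : Type} [Finite C]
    (y : C → T) : ∃ u ∈ U, ∃ z : C → T, ∀ c, y c ≤ z c ∧ N (z c) ⊆ u := by
  obtain ⟨u, hu, hu'⟩ := hU.2.2 (range (fun c => N (y c))) (finite_range _) (by
    rintro _ ⟨c, rfl⟩; exact ⟨hN.isOpen _, hN.nonempty _⟩)
  refine ⟨u, hu, ?_⟩
  have h1 : ∀ c, ∃ z : T, y c ≤ z ∧ N z ⊆ u := by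
    intro c
    have h2 := hu' _ (mem_range_self c)
    obtain ⟨s, hs⟩ := hN.base _ ((hU.1.1 u hu).inter (hN.isOpen (y c))) h2
    obtain ⟨x, hx⟩ := hN.nonempty s
    obtain ⟨z, hz1, hz2⟩ := hN.compat (y c) s ⟨x, (hs hx).2, hx⟩
    exact ⟨z, hz1, (hN.anti _ _ hz2).trans (hs.trans inter_subset_left)⟩
  choose z hz using h1
  exact ⟨z, hz⟩

/-- A countable predense family. -/
lemma exists_antichain (hN : TreeBase N) {U : Set (Set Y)} (hU : U ∈ DOmega Y) {m : ℕ}
    (t : Fin m → T) (hinj : Function.Injective t) (hht : ∀ i j, ht (t i) = ht (t j)) :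
    ∃ A : Set (Fin m → T), A.Countable ∧ (∀ x ∈ A, ∃ u ∈ U, ∀ i, N (x i) ⊆ u) ∧
      ∀ y : Fin m → T, (∀ i, t i ≤ y i) → ∃ x ∈ A, ∃ z : Fin m → T, ∀ i, x i ≤ z i ∧ y i ≤ z i := by
  let S : Set (Set (Fin m → T)) := {P | (∀ x ∈ P, (∀ i, t i ≤ x i) ∧ ∃ u ∈ U, ∀ i, N (x i) ⊆ u) ∧
    P.Pairwise (fun x y => ¬ ∃ z : Fin m → T, ∀ i, x i ≤ z i ∧ y i ≤ z i)}
  obtain ⟨P, hP⟩ := zorn_subset S (by
    intro c hc hchain
    refine ⟨⋃₀ c, ⟨?_, ?_⟩, fun s hs => subset_sUnion_of_mem hs⟩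
    · rintro a ⟨s, hs, ha⟩
      exact (hc hs).1 a ha
    · rintro a ⟨s, hs, ha⟩ b ⟨t, ht, hb⟩ hab
      rcases hchain.total hs ht with hst | hst
      · exact (hc ht).2 (hst ha) hb hab
      · exact (hc hs).2 ha (hst hb) hab)
  refine ⟨P, hT.free m t hinj hht P (fun x hx => (hP.1.1 x hx).1) hP.1.2,
    fun x hx => (hP.1.1 x hx).2, ?_⟩
  intro y hy
  by_contra hcon
  push Not at hcon
  obtain ⟨u, hu, z, hz⟩ := hT.meet_ext hN hU y
  have hzP : ∀ x ∈ P, ¬ ∃ w : Fin m → T, ∀ i, x i ≤ w i ∧ z i ≤ w i := by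
    rintro x hx ⟨w, hw⟩
    obtain ⟨i, hi⟩ := hcon x hx w
    exact hi (hw i).1 ((hz i).1.trans (hw i).2)
  have hins : insert z P ∈ S := by
    refine ⟨?_, ?_⟩
    · rintro x (rfl | hx)
      · exact ⟨fun i => (hy i).trans (hz i).1, u, hu, fun i => (hz i).2⟩
      · exact hP.1.1 x hx
    · refine hP.1.2.insert ?_
      intro x hx _
      refine ⟨?_, hzP x hx⟩
      rintro ⟨w, hw⟩
      exact hzP x hx ⟨w, fun i => (hw i).symm⟩
  have hzmem : z ∈ P := hP.2 hins (subset_insert _ _) (mem_insert _ _)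
  exact hzP z hzmem ⟨z, fun i => ⟨le_rfl, le_rfl⟩⟩

/-- A countable level `δ` at which every finite set of nodes is captured by a member of each
family. -/
lemma exists_level (hN : TreeBase N) (U : ℕ → Set (Set Y)) (hU : ∀ n, U n ∈ DOmega Y) :
    ∃ δ : Ordinal.{0}, δ < Ordinal.omega 1 ∧ ∀ (n : ℕ) (C : Type) [Finite C] (d : C → T),
      (∀ c, ht (d c) = δ) → ∃ u ∈ U n, ∀ c, N (d c) ⊆ u := by
  classical
  -- admissible tuples
  have hA : ∀ (n m : ℕ) (t : Fin m → T), ∃ A : Set (Fin m → T), A.Countable ∧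
      (∀ x ∈ A, ∃ u ∈ U n, ∀ i, N (x i) ⊆ u) ∧
      ((Function.Injective t ∧ ∀ i j, ht (t i) = ht (t j)) →
        ∀ y : Fin m → T, (∀ i, t i ≤ y i) →
          ∃ x ∈ A, ∃ z : Fin m → T, ∀ i, x i ≤ z i ∧ y i ≤ z i) := by
    intro n m t
    by_cases h : Function.Injective t ∧ ∀ i j, ht (t i) = ht (t j)
    · obtain ⟨A, h1, h2, h3⟩ := hT.exists_antichain hN (hU n) t h.1 h.2
      exact ⟨A, h1, h2, fun _ => h3⟩
    · exact ⟨∅, countable_empty, by simp, fun h' => absurd h' h⟩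
  choose A hA1 hA2 hA3 using hA
  -- one closing off step
  have hstep : ∀ α : Ordinal.{0}, α < Ordinal.omega 1 → ∃ β : Ordinal.{0}, β < Ordinal.omega 1 ∧
      α < β ∧ ∀ (n m : ℕ) (t : Fin m → T), (∀ i, ht (t i) ≤ α) → ∀ x ∈ A n m t, ∀ i,
        ht (x i) < β := by
    intro α hα
    have hc : Countable {t : T | ht t ≤ α} := hT.countable_le α hα
    let J : Type := Σ (n m : ℕ) (t : Fin m → {t : T | ht t ≤ α}),
      (A n m (fun i => (t i : T)) : Set (Fin m → T)) × Fin m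
    have hJ : Countable J := by
      have : ∀ (n m : ℕ) (t : Fin m → {t : T | ht t ≤ α}),
          Countable (A n m (fun i => (t i : T)) : Set (Fin m → T)) := fun n m t => hA1 _ _ _
      infer_instance
    let g : J → Ordinal.{0} := fun j => ht (j.2.2.2.1.1 j.2.2.2.2)
    have hg : ⨆ j, g j < Ordinal.omega 1 := Ordinal.iSup_lt_omega_one (fun j => hT.ht_lt _)
    refine ⟨Order.succ (max (⨆ j, g j) α), (Cardinal.isSuccLimit_omega 1).succ_lt
      (max_lt hg hα), Order.lt_succ_of_le (le_max_right _ _), ?_⟩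
    intro n m t ht' x hx i
    have h1 : g ⟨n, m, fun i => ⟨t i, ht' i⟩, ⟨⟨x, hx⟩, i⟩⟩ ≤ ⨆ j, g j :=
      Ordinal.le_iSup g _
    exact Order.lt_succ_of_le (h1.trans (le_max_left _ _))
  choose! step hs1 hs2 hs3 using hstep
  let D : ℕ → Ordinal.{0} := fun k => step^[k] 0
  have hD1 : ∀ k, D k < Ordinal.omega 1 := by
    intro k
    induction k with
    | zero => exact Ordinal.omega_pos 1
    | succ k ih =>
      simp only [D, Function.iterate_succ_apply']
      exact hs1 _ ih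
  have hD2 : ∀ k, D k < D (k + 1) := by
    intro k
    simp only [D, Function.iterate_succ_apply']
    exact hs2 _ (hD1 k)
  let δ : Ordinal.{0} := ⨆ k, D k
  have hδ : δ < Ordinal.omega 1 := Ordinal.iSup_lt_omega_one hD1
  have hDδ : ∀ k, D k < δ := fun k => (hD2 k).trans_le (Ordinal.le_iSup D (k + 1))
  have hlt : ∀ γ < δ, ∃ k, γ ≤ D k := by
    intro γ hγ
    obtain ⟨k, hk⟩ := (Ordinal.lt_iSup_iff).1 hγ
    exact ⟨k, hk.le⟩
  refine ⟨δ, hδ, ?_⟩
  intro n C _ d hd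
  -- predecessors
  have hpred : ∀ (c : C) (γ : Ordinal.{0}), ∃ s : T, γ ≤ δ → s ≤ d c ∧ ht s = γ := by
    intro c γ
    by_cases h : γ ≤ δ
    · obtain ⟨s, hs, _⟩ := hT.exists_unique_pred (d c) γ (by rw [hd c]; exact h)
      exact ⟨s, fun _ => hs⟩
    · exact ⟨d c, fun h' => absurd h' h⟩
  choose pr hpr using hpred
  -- a level separating all the branches that can be separated
  obtain ⟨γ, hγδ, hγ⟩ : ∃ γ < δ, ∀ c c' : C, pr c γ = pr c' γ → ∀ γ' < δ, pr c γ' = pr c' γ' := by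
    have h1 : ∀ p : C × C, ∃ γ < δ, pr p.1 γ = pr p.2 γ → ∀ γ' < δ, pr p.1 γ' = pr p.2 γ' := by
      intro p
      by_cases h : ∀ γ' < δ, pr p.1 γ' = pr p.2 γ'
      · exact ⟨0, (zero_le (a := D 0)).trans_lt (hDδ 0), fun _ => h⟩
      · push Not at h
        obtain ⟨γ', h2, h3⟩ := h
        exact ⟨γ', h2, fun h4 => absurd h4 h3⟩
    choose g hg1 hg2 using h1
    obtain ⟨γ, hγ1, hγ2⟩ : ∃ γ < δ, ∀ p, g p ≤ γ := by
      have := Fintype.ofFinite C
      have key : ∀ S : Finset (C × C), ∃ γ < δ, ∀ p ∈ S, g p ≤ γ := by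
        intro S
        induction S using Finset.induction_on with
        | empty => exact ⟨0, (zero_le (a := D 0)).trans_lt (hDδ 0), by simp⟩
        | insert q S _ ih =>
          obtain ⟨γ, h1, h2⟩ := ih
          refine ⟨max γ (g q), max_lt h1 (hg1 q), ?_⟩
          intro p hp
          rcases Finset.mem_insert.1 hp with rfl | hp
          · exact le_max_right _ _
          · exact (h2 p hp).trans (le_max_left _ _)
      obtain ⟨γ, h1, h2⟩ := key Finset.univ
      exact ⟨γ, h1, fun p => h2 p (Finset.mem_univ _)⟩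
    refine ⟨γ, hγ1, ?_⟩
    intro c c' hcc'
    refine hg2 (c, c') ?_
    have h1 : g (c, c') ≤ γ := hγ2 (c, c')
    have h2 : pr c (g (c, c')) ≤ pr c γ := hT.le_of_le (hpr c _ (hg1 _).le).1
      (hpr c γ hγ1.le).1 (by rw [(hpr c _ (hg1 _).le).2, (hpr c γ hγ1.le).2]; exact h1)
    have h3 : pr c' (g (c, c')) ≤ pr c' γ := hT.le_of_le (hpr c' _ (hg1 _).le).1
      (hpr c' γ hγ1.le).1 (by rw [(hpr c' _ (hg1 _).le).2, (hpr c' γ hγ1.le).2]; exact h1)
    rw [← hcc'] at h3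
    exact (hT.exists_unique_pred (pr c γ) (g (c, c'))
      (by rw [(hpr c γ hγ1.le).2]; exact h1)).unique
      ⟨h2, (hpr c _ (hg1 _).le).2⟩ ⟨h3, (hpr c' _ (hg1 _).le).2⟩
  -- enumerate the predecessors at level `γ`
  let R : Set T := range (fun c => pr c γ)
  have hRfin : Finite R := (finite_range _)
  obtain ⟨m, ⟨e⟩⟩ := Finite.exists_equiv_fin R
  let τ : Fin m → T := fun i => (e.symm i : T)
  have hτinj : Function.Injective τ := Subtype.val_injective.comp e.symm.injective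
  have hτ : ∀ i, ∃ c, pr c γ = τ i := fun i => (e.symm i).2
  choose rep hrep using hτ
  have hτht : ∀ i, ht (τ i) = γ := by
    intro i
    rw [← hrep i]
    exact (hpr _ γ hγδ.le).2
  obtain ⟨x, hx, z, hz⟩ := hA3 n m τ ⟨hτinj, fun i j => by rw [hτht, hτht]⟩
    (fun i => d (rep i)) (fun i => by rw [← hrep i]; exact (hpr _ γ hγδ.le).1)
  obtain ⟨u, hu, hu'⟩ := hA2 n m τ x hx
  refine ⟨u, hu, ?_⟩
  intro c
  obtain ⟨k, hk⟩ := hlt γ hγδ
  let i : Fin m := e ⟨pr c γ, mem_range_self c⟩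
  have hi : τ i = pr c γ := by simp [τ, i]
  have hxht : ht (x i) < δ := by
    have h1 := hs3 (D k) (hD1 k) n m τ (fun j => by rw [hτht]; exact hk) x hx i
    have h2 : step (D k) = D (k + 1) := by
      simp only [D, Function.iterate_succ_apply']
    rw [h2] at h1
    exact h1.trans (hDδ _)
  have hxd : x i ≤ d (rep i) := hT.le_of_le (hz i).1 (hz i).2 (by
    rw [hd]; exact hxht.le)
  have h1 : pr (rep i) (ht (x i)) = x i :=
    (hT.exists_unique_pred (d (rep i)) (ht (x i)) (by rw [hd]; exact hxht.le)).unique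
      ⟨(hpr _ _ hxht.le).1, (hpr _ _ hxht.le).2⟩ ⟨hxd, rfl⟩
  have h2 : pr c (ht (x i)) = pr (rep i) (ht (x i)) :=
    hγ c (rep i) (by rw [hrep i, hi]) _ hxht
  have h3 : x i ≤ d c := by
    rw [← h1, ← h2]
    exact (hpr c _ hxht.le).1
  exact (hN.anti _ _ h3).trans (hu' i)

/-- The space of a free Suslin tree satisfies `S_1(D_Ω,D_Ω)`. -/
theorem sOne (hN : TreeBase N) : SOne (DOmega Y) (DOmega Y) := by
  classical
  intro U hU
  obtain ⟨δ, hδ, hcap⟩ := hT.exists_level hN U hU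
  let L : Type := {t : T // ht t = δ}
  have hL : Countable L := hT.level_countable δ
  have hFc : Countable (Finset L) := inferInstance
  obtain ⟨e, he⟩ := exists_surjective_nat (Finset L)
  have h1 : ∀ n, ∃ u ∈ U n, ∀ c ∈ e n, N (c : L).1 ⊆ u := by
    intro n
    obtain ⟨u, hu, hu'⟩ := hcap n (e n) (fun c => c.1.1) (fun c => c.1.2)
    exact ⟨u, hu, fun c hc => hu' ⟨c, hc⟩⟩
  choose V hV1 hV2 using h1
  refine ⟨V, hV1, DOmega_of ?_ ?_ ?_⟩
  · rintro _ ⟨n, rfl⟩
    exact (hU n).1.1 _ (hV1 n)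
  · rintro _ ⟨n, rfl⟩
    exact not_dense_of_mem_DOmega (hU n) (hV1 n)
  · intro F hF hF'
    have h2 : ∀ f : F, ∃ z : T, N z ⊆ (f : Set Y) ∧ ∃ c : L, c.1 ≤ z := by
      intro f
      obtain ⟨s, hs⟩ := hN.base f (hF' f f.2).1 (hF' f f.2).2
      obtain ⟨z, hz1, hz2⟩ := hT.exists_ext s (max (ht s) δ) (le_max_left _ _)
        (max_lt (hT.ht_lt s) hδ)
      obtain ⟨c, hc, _⟩ := hT.exists_unique_pred z δ (by rw [hz2]; exact le_max_right _ _)
      exact ⟨z, (hN.anti _ _ hz1).trans hs, ⟨c, hc.2⟩, hc.1⟩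
    choose z hz c hc using h2
    have hFfin : Finite F := hF
    have := Fintype.ofFinite F
    obtain ⟨n, hn⟩ := he (Finset.univ.image c)
    refine ⟨V n, mem_range_self n, ?_⟩
    intro f hf
    obtain ⟨y, hy⟩ := hN.nonempty (z ⟨f, hf⟩)
    refine ⟨y, hV2 n (c ⟨f, hf⟩) ?_ (hN.anti _ _ (hc ⟨f, hf⟩) hy), hz ⟨f, hf⟩ hy⟩
    rw [hn]
    exact Finset.mem_image_of_mem _ (Finset.mem_univ _)

/-- The square of the space of a free Suslin tree is not ccc. -/
theorem not_ccc (hN : TreeBase N) : ¬ CCC (Fin 2 → Y) := by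
  classical
  intro hccc
  let G : Set (Set (Fin 2 → Y)) := {g | ∃ a b : T, (¬ ∃ c, a ≤ c ∧ b ≤ c) ∧
    g = univ.pi ![N a, N b]}
  have hopen : ∀ a b : T, IsOpen (univ.pi ![N a, N b] : Set (Fin 2 → Y)) := by
    intro a b
    refine isOpen_set_pi finite_univ ?_
    intro i _
    fin_cases i
    · exact hN.isOpen a
    · exact hN.isOpen b
  obtain ⟨G', hG', hG'c, hG'd⟩ := hccc.exists_countable G (by
    rintro _ ⟨a, b, _, rfl⟩
    exact hopen a b)
  have hex : ∀ g : G', ∃ a b : T, (¬ ∃ c, a ≤ c ∧ b ≤ c) ∧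
      (g : Set (Fin 2 → Y)) = univ.pi ![N a, N b] := fun g => hG' g.2
  choose a b hab1 hab2 using hex
  have hcG' : Countable G' := hG'c
  let δ : Ordinal.{0} := max (⨆ g, ht (a g)) (⨆ g, ht (b g))
  have hδ : δ < Ordinal.omega 1 := max_lt (Ordinal.iSup_lt_omega_one (fun g => hT.ht_lt _))
    (Ordinal.iSup_lt_omega_one (fun g => hT.ht_lt _))
  obtain ⟨t0⟩ := hT.nonempty
  obtain ⟨t, ht0, htδ⟩ := hT.exists_ext t0 (max (ht t0) δ) (le_max_left _ _)
    (max_lt (hT.ht_lt t0) hδ)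
  have htδ' : δ ≤ ht t := by rw [htδ]; exact le_max_right _ _
  obtain ⟨p, q, htp, htq, hpq⟩ := hT.split t
  obtain ⟨y0, hy0⟩ := hN.nonempty p
  obtain ⟨y1, hy1⟩ := hN.nonempty q
  have hy : (![y0, y1] : Fin 2 → Y) ∈ univ.pi ![N p, N q] := by
    intro i _
    fin_cases i
    · exact hy0
    · exact hy1
  have hyG : (![y0, y1] : Fin 2 → Y) ∈ ⋃₀ G := ⟨_, ⟨p, q, hpq, rfl⟩, hy⟩
  obtain ⟨w, hw, g, hg, hwg⟩ := mem_closure_iff.1 (hG'd hyG) _ (hopen p q) hy
  have hwg' : w ∈ univ.pi ![N (a ⟨g, hg⟩), N (b ⟨g, hg⟩)] := by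
    rw [← hab2 ⟨g, hg⟩]; exact hwg
  have h0 : w 0 ∈ N p ∩ N (a ⟨g, hg⟩) := ⟨hw 0 (mem_univ _), hwg' 0 (mem_univ _)⟩
  have h1 : w 1 ∈ N q ∩ N (b ⟨g, hg⟩) := ⟨hw 1 (mem_univ _), hwg' 1 (mem_univ _)⟩
  obtain ⟨c0, hc0, hc0'⟩ := hN.compat _ _ ⟨_, h0⟩
  obtain ⟨c1, hc1, hc1'⟩ := hN.compat _ _ ⟨_, h1⟩
  have hat : a ⟨g, hg⟩ ≤ t := by
    refine hT.le_of_le hc0' (htp.trans hc0) ?_
    exact ((Ordinal.le_iSup (fun g => ht (a g)) _).trans (le_max_left _ _)).trans htδ'
  have hbt : b ⟨g, hg⟩ ≤ t := by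
    refine hT.le_of_le hc1' (htq.trans hc1) ?_
    exact ((Ordinal.le_iSup (fun g => ht (b g)) _).trans (le_max_right _ _)).trans htδ'
  exact hab1 ⟨g, hg⟩ ⟨t, hat, hbt⟩

end IsFreeSuslinTree

/-! ### The branch space of a tree -/

section Branch

variable (T : Type) [PartialOrder T]

/-- The branch space of a tree `T`: the maximal chains of `T`. -/
def Branch : Type := {b : Set T // IsMaxChain (· ≤ ·) b}

variable {T}

/-- the set of branches through `t` -/
def Branch.N (t : T) : Set (Branch T) := {b | t ∈ b.1}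

instance : TopologicalSpace (Branch T) :=
  TopologicalSpace.generateFrom (range (Branch.N (T := T)))

variable {ht : T → Ordinal.{0}} (hT : IsFreeSuslinTree T ht)

include hT

lemma Branch.anti {s t : T} (hst : s ≤ t) : Branch.N t ⊆ Branch.N s := by
  intro b hb
  have hchain : IsChain (· ≤ ·) (insert s b.1) := by
    refine b.2.1.insert ?_
    intro c hc _
    rcases b.2.1.total hb hc with h | h
    · exact Or.inl (hst.trans h)
    · rcases le_total (ht s) (ht c) with h' | h'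
      · exact Or.inl (hT.le_of_le hst h h')
      · exact Or.inr (hT.le_of_le h hst h')
  have := b.2.2 hchain (subset_insert _ _)
  show s ∈ b.1
  rw [this]
  exact mem_insert _ _

lemma Branch.isClopen (t : T) : IsClopen (Branch.N t) := by
  refine ⟨⟨?_⟩, TopologicalSpace.isOpen_generateFrom_of_mem (mem_range_self t)⟩
  rw [isOpen_iff_forall_mem_open]
  intro b hb
  have h1 : ∃ s ∈ b.1, ¬ s ≤ t ∧ ¬ t ≤ s := by
    by_contra hcon
    push Not at hcon
    have hchain : IsChain (· ≤ ·) (insert t b.1) := by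
      refine b.2.1.insert ?_
      intro c hc _
      by_cases h : c ≤ t
      · exact Or.inr h
      · exact Or.inl (hcon c hc h)
    have := b.2.2 hchain (subset_insert _ _)
    apply hb
    show t ∈ b.1
    rw [this]
    exact mem_insert _ _
  obtain ⟨s, hs, h2, h3⟩ := h1
  refine ⟨Branch.N s, ?_, TopologicalSpace.isOpen_generateFrom_of_mem (mem_range_self s), hs⟩
  intro b' hb' hb''
  rcases b'.2.1.total hb' hb'' with h | h
  · exact h2 h
  · exact h3 h

lemma Branch.exists_subset {O : Set (Branch T)} (hO : IsOpen O) {b : Branch T} (hb : b ∈ O) :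
    ∃ t ∈ b.1, Branch.N t ⊆ O := by
  induction hO with
  | basic s hs =>
    obtain ⟨t, rfl⟩ := hs
    exact ⟨t, hb, Subset.rfl⟩
  | univ =>
    have : b.1.Nonempty := by
      obtain ⟨t0⟩ := hT.nonempty
      by_contra hcon
      rw [not_nonempty_iff_eq_empty] at hcon
      have := b.2.2 (show IsChain (· ≤ ·) {t0} from IsChain.singleton)
        (by rw [hcon]; exact empty_subset _)
      rw [hcon] at this
      exact (singleton_nonempty t0).ne_empty this.symm
    obtain ⟨t, ht⟩ := this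
    exact ⟨t, ht, subset_univ _⟩
  | inter s t _ _ ih1 ih2 =>
    obtain ⟨u, hu, hu'⟩ := ih1 hb.1
    obtain ⟨v, hv, hv'⟩ := ih2 hb.2
    rcases b.2.1.total hu hv with h | h
    · exact ⟨v, hv, subset_inter ((Branch.anti hT h).trans hu') hv'⟩
    · exact ⟨u, hu, subset_inter hu' ((Branch.anti hT h).trans hv')⟩
  | sUnion S _ ih =>
    obtain ⟨s, hs, hbs⟩ := hb
    obtain ⟨t, ht, ht'⟩ := ih s hs hbs
    exact ⟨t, ht, ht'.trans (subset_sUnion_of_mem hs)⟩

lemma Branch.treeBase : TreeBase (Branch.N (T := T)) where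
  isOpen t := (Branch.isClopen hT t).2
  nonempty t := by
    obtain ⟨b, hb, hb'⟩ := IsChain.exists_maxChain
      (show IsChain (fun x y : T => x ≤ y) {t} from IsChain.singleton)
    exact ⟨⟨b, hb⟩, hb' (mem_singleton t)⟩
  base O hO hne := by
    obtain ⟨b, hb⟩ := hne
    obtain ⟨t, _, ht'⟩ := Branch.exists_subset hT hO hb
    exact ⟨t, ht'⟩
  anti s t hst := Branch.anti hT hst
  compat s t := by
    rintro ⟨b, hb1, hb2⟩
    rcases b.2.1.total hb1 hb2 with h | h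
    · exact ⟨t, h, le_rfl⟩
    · exact ⟨s, le_rfl, h⟩

lemma Branch.t2 : T2Space (Branch T) := by
  refine ⟨?_⟩
  intro b b' hne
  have h1 : ∃ t ∈ b.1, t ∉ b'.1 := by
    by_contra hcon
    push Not at hcon
    have := b.2.2 b'.2.1 hcon
    exact hne (Subtype.ext this)
  obtain ⟨t, ht1, ht2⟩ := h1
  exact ⟨Branch.N t, (Branch.N t)ᶜ, (Branch.isClopen hT t).2, (Branch.isClopen hT t).1.isOpen_compl,
    ht1, ht2, disjoint_compl_right⟩

/-- The branch space has a base of clopen sets. -/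
lemma Branch.zeroDim : TopologicalSpace.IsTopologicalBasis {s : Set (Branch T) | IsClopen s} := by
  refine TopologicalSpace.isTopologicalBasis_of_isOpen_of_nhds (fun s hs => hs.2) ?_
  intro b O hb hO
  obtain ⟨t, ht1, ht2⟩ := Branch.exists_subset hT hO hb
  exact ⟨Branch.N t, Branch.isClopen hT t, ht1, ht2⟩

end Branch

end Pool.Agent.H85.Sel
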