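import Mathlib
import Pool.Agent.H85.SelDefs
import Pool.Agent.H85.SelIndepDefs
import Pool.Agent.H85.SelMain
import Pool.Agent.H85.SelMA
import Pool.Agent.H85.SelSuslin

/-!
# Both answers to Q1 and Q2 are relatively consistent with ZFC

Martin's axiom at `ℵ₁` implies that `S_1(D_Ω, D_Ω)` and `S_fin(D_Ω, D_Ω)` are preserved by finite
powers; a free Suslin tree yields a zero-dimensional Hausdorff space satisfying `S_1(D_Ω, D_Ω)`
(hence also `S_fin(D_Ω, D_Ω)`) whose square fails `S_fin(D_Ω, D_Ω)` (hence also `S_1(D_Ω, D_Ω)`).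
-/

set_option autoImplicit false

namespace Pool.Agent.Results.MP_9098dd_gt.PowersIndependence

open Set Pool.Agent.H85.Sel

/-- (1) Under `MA_{ℵ₁}` both principles are preserved by finite powers, for all spaces.
(2) If there is a free Suslin tree, there is a zero-dimensional Hausdorff space `X` satisfying
`S_1(D_Ω, D_Ω)` such that `X²` does not even satisfy `S_fin(D_Ω, D_Ω)`. -/
theorem result :
    (MartinAxiomAlephOne →
      (∀ (X : Type) [TopologicalSpace X], SOne (DOmega X) (DOmega X) →
        ∀ k : ℕ, SOne (DOmega (Fin k → X)) (DOmega (Fin k → X))) ∧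
      (∀ (X : Type) [TopologicalSpace X], SFin (DOmega X) (DOmega X) →
        ∀ k : ℕ, SFin (DOmega (Fin k → X)) (DOmega (Fin k → X)))) ∧
    ((∃ (T : Type) (_ : PartialOrder T) (ht : T → Ordinal.{0}), IsFreeSuslinTree T ht) →
      ∃ (X : Type) (_ : TopologicalSpace X), T2Space X ∧
        TopologicalSpace.IsTopologicalBasis {s : Set X | IsClopen s} ∧
        SOne (DOmega X) (DOmega X) ∧
        ¬ SFin (DOmega (Fin 2 → X)) (DOmega (Fin 2 → X))) := by
  refine ⟨fun hMA => ⟨?_, ?_⟩, ?_⟩
  · intro X _ h k
    rcases isEmpty_or_nonempty X with hX | hX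
    · intro U hU
      exfalso
      have hs : Subsingleton (Fin k → X) := inferInstance
      rcases isEmpty_or_nonempty (Fin k → X) with he | hne
      · obtain ⟨u, hu, _⟩ := (hU 0).2.2 ∅ finite_empty (by simp)
        exact (hU 0).2.1 u hu (fun x _ => he.elim x)
      · obtain ⟨u, hu, hu'⟩ := (hU 0).2.2 {univ} (finite_singleton _) (by simp)
        obtain ⟨x, hx, _⟩ := hu' univ (mem_singleton _)
        exact (hU 0).2.1 u hu (fun y _ => by
          rw [Subsingleton.elim y x]; exact subset_closure hx)
    · have hc : CCC (Fin 2 → X) := ccc_square_of_MA hMA X h.sfin.ccc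
      exact SOne_DOmega_of_powers (fun r => SOne_DD_all h hc (Fin r × Fin k))
  · intro X _ h k
    have hc : CCC (Fin 2 → X) := ccc_square_of_MA hMA X h.ccc
    exact SFin_DOmega_of_powers (fun r => SFin_DD_all h hc (Fin r × Fin k))
  · rintro ⟨T, _, ht, hT⟩
    refine ⟨Branch T, inferInstance, Branch.t2 hT, Branch.zeroDim hT,
      hT.sOne (Branch.treeBase hT), ?_⟩
    intro h
    exact hT.not_ccc (Branch.treeBase hT) h.ccc

end Pool.Agent.Results.MP_9098dd_gt.PowersIndependence
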